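import Pool.Agent.NonUnitary.Small

/-!
Product formulas for the sum of divisors and the sum of unitary divisors, and the reduction to the
primes whose square divides `n`.
-/

namespace Pool.Agent.NonUnitary

open Finset

/-- sum of the unitary divisors of `n` -/
def usum (n : ℕ) : ℕ := ∑ d ∈ n.divisors with Nat.Coprime d (n / d), d

lemma usum_zero : usum 0 = 0 := by simp [usum]

lemma usum_mul {m n : ℕ} (h : Nat.Coprime m n) : usum (m * n) = usum m * usum n := by
  rcases Nat.eq_zero_or_pos m with rfl | hm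
  · simp [usum_zero]
  rcases Nat.eq_zero_or_pos n with rfl | hn
  · simp [usum_zero]
  have hmn : m * n ≠ 0 := (Nat.mul_pos hm hn).ne'
  unfold usum
  rw [Finset.sum_mul_sum, ← Finset.sum_product']
  symm
  apply Finset.sum_nbij' (fun x => x.1 * x.2) (fun d => (Nat.gcd d m, Nat.gcd d n))
  · rintro ⟨x, y⟩ hxy
    simp only [mem_product, mem_filter, Nat.mem_divisors] at hxy ⊢
    obtain ⟨⟨⟨hx, _⟩, hxc⟩, ⟨hy, _⟩, hyc⟩ := hxy
    refine ⟨⟨Nat.mul_dvd_mul hx hy, hmn⟩, ?_⟩
    rw [Nat.mul_div_mul_comm hx hy]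
    have h1 : Nat.Coprime x (n / y) :=
      Nat.Coprime.coprime_dvd_left hx (Nat.Coprime.coprime_dvd_right (Nat.div_dvd_of_dvd hy) h)
    have h2 : Nat.Coprime y (m / x) :=
      Nat.Coprime.coprime_dvd_left hy (Nat.Coprime.coprime_dvd_right (Nat.div_dvd_of_dvd hx) h.symm)
    exact Nat.Coprime.mul_left (Nat.Coprime.mul_right hxc h1) (Nat.Coprime.mul_right h2 hyc)
  · intro d hd
    simp only [mem_product, mem_filter, Nat.mem_divisors] at hd ⊢
    obtain ⟨⟨hd, _⟩, hdc⟩ := hd
    have e : Nat.gcd d m * Nat.gcd d n = d := by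
      rw [← Nat.Coprime.gcd_mul d h]; exact Nat.gcd_eq_left hd
    have e2 : m * n / d = (m / Nat.gcd d m) * (n / Nat.gcd d n) := by
      conv_lhs => rw [← e]
      exact Nat.mul_div_mul_comm (Nat.gcd_dvd_right _ _) (Nat.gcd_dvd_right _ _)
    rw [e2] at hdc
    refine ⟨⟨⟨Nat.gcd_dvd_right _ _, hm.ne'⟩, ?_⟩, ⟨Nat.gcd_dvd_right _ _, hn.ne'⟩, ?_⟩
    · exact Nat.Coprime.coprime_dvd_left (Nat.gcd_dvd_left _ _)
        (Nat.Coprime.coprime_dvd_right (Dvd.intro _ rfl) hdc)
    · exact Nat.Coprime.coprime_dvd_left (Nat.gcd_dvd_left _ _)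
        (Nat.Coprime.coprime_dvd_right (Dvd.intro_left _ rfl) hdc)
  · rintro ⟨x, y⟩ hxy
    simp only [mem_product, mem_filter, Nat.mem_divisors] at hxy
    obtain ⟨⟨⟨hx, _⟩, hxc⟩, ⟨hy, _⟩, hyc⟩ := hxy
    have h1 : Nat.Coprime y m := Nat.Coprime.coprime_dvd_left hy h.symm
    have h2 : Nat.Coprime x n := Nat.Coprime.coprime_dvd_left hx h
    ext
    · show Nat.gcd (x * y) m = x
      rw [Nat.Coprime.gcd_mul_right_cancel _ h1]; exact Nat.gcd_eq_left hx
    · show Nat.gcd (x * y) n = y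
      rw [Nat.Coprime.gcd_mul_left_cancel _ h2]; exact Nat.gcd_eq_left hy
  · intro d hd
    simp only [mem_filter, Nat.mem_divisors] at hd
    obtain ⟨⟨hd, _⟩, hdc⟩ := hd
    show Nat.gcd d m * Nat.gcd d n = d
    rw [← Nat.Coprime.gcd_mul d h]; exact Nat.gcd_eq_left hd
  · rintro ⟨x, y⟩ _
    rfl

lemma usum_prime_pow {p k : ℕ} (hp : p.Prime) (hk : k ≠ 0) : usum (p ^ k) = p ^ k + 1 := by
  have hset : (p ^ k).divisors.filter (fun d => Nat.Coprime d (p ^ k / d)) = {1, p ^ k} := by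
    ext d
    simp only [mem_filter, mem_insert, mem_singleton]
    constructor
    · rintro ⟨hd, hc⟩
      obtain ⟨i, hi, rfl⟩ := (Nat.mem_divisors_prime_pow hp k).mp hd
      rcases Nat.eq_zero_or_pos i with rfl | hi0
      · left; simp
      · rcases eq_or_lt_of_le hi with rfl | hlt
        · right; rfl
        · exfalso
          rw [Nat.pow_div hi hp.pos] at hc
          have h1 : p ∣ p ^ i := dvd_pow_self p hi0.ne'
          have h2 : p ∣ p ^ (k - i) := dvd_pow_self p (by omega)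
          have := Nat.dvd_gcd h1 h2
          rw [hc] at this
          exact hp.one_lt.ne' (Nat.dvd_one.mp this)
    · have hpk : p ^ k ≠ 0 := pow_ne_zero _ hp.ne_zero
      rintro (rfl | rfl)
      · exact ⟨Nat.mem_divisors.mpr ⟨one_dvd _, hpk⟩, Nat.coprime_one_left _⟩
      · refine ⟨Nat.mem_divisors.mpr ⟨dvd_rfl, hpk⟩, ?_⟩
        rw [Nat.div_self (Nat.pos_of_ne_zero hpk)]; exact Nat.coprime_one_right _
  unfold usum
  rw [hset, Finset.sum_pair (Nat.one_lt_pow hk hp.one_lt).ne]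
  ring

lemma usum_one : usum 1 = 1 := by decide

lemma usum_eq {n : ℕ} (hn : n ≠ 0) :
    usum n = ∏ p ∈ n.primeFactors, (p ^ n.factorization p + 1) := by
  rw [Nat.multiplicative_factorization usum (fun x y h => usum_mul h) usum_one hn]
  apply Finset.prod_congr rfl
  intro p hp
  have hpp := Nat.prime_of_mem_primeFactors hp
  exact usum_prime_pow hpp (Finsupp.mem_support_iff.mp hp)

lemma sigma_eq {n : ℕ} (hn : n ≠ 0) :
    ∑ d ∈ n.divisors, d = ∏ p ∈ n.primeFactors, ∑ i ∈ range (n.factorization p + 1), p ^ i := by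
  have h := Nat.multiplicative_factorization (fun n => ∑ d ∈ n.divisors, d)
    (fun x y h => Nat.Coprime.sum_divisors_mul h) (by simp) hn
  rw [h]
  apply Finset.prod_congr rfl
  intro p hp
  have hpp := Nat.prime_of_mem_primeFactors hp
  show ∑ d ∈ (p ^ n.factorization p).divisors, d = _
  rw [Nat.divisors_prime_pow hpp, Finset.sum_map]
  rfl

/-- primes whose square divides `n` -/
def sq (n : ℕ) : Finset ℕ := n.primeFactors.filter (fun p => p ^ 2 ∣ n)

lemma mem_sq {n p : ℕ} (hn : n ≠ 0) (hp : p ∈ n.primeFactors) : p ∈ sq n ↔ 2 ≤ n.factorization p := by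
  unfold sq
  rw [mem_filter]
  have hpp := Nat.prime_of_mem_primeFactors hp
  constructor
  · rintro ⟨_, h⟩; exact (hpp.pow_dvd_iff_le_factorization hn).mp h
  · intro h; exact ⟨hp, (hpp.pow_dvd_iff_le_factorization hn).mpr h⟩

lemma reduced {n : ℕ} (hn : n ≠ 0) (h : ∑ d ∈ n.divisors, d = 2 * usum n) :
    ∏ p ∈ sq n, S (p : ℤ) (n.factorization p) =
      2 * ∏ p ∈ sq n, ((p : ℤ) ^ n.factorization p + 1) := by
  rw [sigma_eq hn, usum_eq hn] at h
  have h' : ∏ p ∈ n.primeFactors, S (p : ℤ) (n.factorization p) =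
      2 * ∏ p ∈ n.primeFactors, ((p : ℤ) ^ n.factorization p + 1) := by
    have := congrArg (fun x : ℕ => (x : ℤ)) h
    push_cast at this
    exact this
  rw [← Finset.prod_filter_mul_prod_filter_not n.primeFactors (fun p => p ^ 2 ∣ n),
    ← Finset.prod_filter_mul_prod_filter_not n.primeFactors (fun p => p ^ 2 ∣ n)
      (fun p => ((p : ℤ) ^ n.factorization p + 1))] at h'
  have e : ∏ p ∈ n.primeFactors with ¬ p ^ 2 ∣ n, S (p : ℤ) (n.factorization p) =
      ∏ p ∈ n.primeFactors with ¬ p ^ 2 ∣ n, ((p : ℤ) ^ n.factorization p + 1) := by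
    apply Finset.prod_congr rfl
    intro p hp
    rw [mem_filter] at hp
    have hpp := Nat.prime_of_mem_primeFactors hp.1
    have h1 : n.factorization p ≠ 0 := Finsupp.mem_support_iff.mp hp.1
    have h2 : ¬ 2 ≤ n.factorization p := fun hc => hp.2 ((hpp.pow_dvd_iff_le_factorization hn).mpr hc)
    have h3 : n.factorization p = 1 := by omega
    rw [h3]
    simp [S, sum_range_succ]; ring
  rw [e, ← mul_assoc] at h'
  refine mul_right_cancel₀ ?_ h'
  apply ne_of_gt
  apply Finset.prod_pos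
  intro p hp
  positivity

end Pool.Agent.NonUnitary
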