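import Pool.Agent.NonUnitary.Ineq

/-!
The case in which one odd prime `u` has exponent 2 or 3 and the other odd prime `v` has odd exponent `y ≥ 5`.
-/

namespace Pool.Agent.NonUnitary

lemma le_of_mul_eq {T Q M : ℤ} (hT : 0 < T) (hM : 0 < M) (h : T * Q = M) : 1 ≤ Q ∧ T ≤ M := by
  have hQ : 0 < Q := by
    by_contra hc
    have : T * Q ≤ 0 := mul_nonpos_of_nonneg_of_nonpos hT.le (by linarith)
    linarith
  refine ⟨hQ, ?_⟩
  nlinarith

lemma A_le {A q : ℤ} (hq : 3 ≤ q) (h : A * q < 3 * (q ^ 2 + 1)) : A ≤ 3 * q := by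
  by_contra hc
  have : (3 * q + 1) * q ≤ A * q := mul_le_mul_of_nonneg_right (by linarith) (by linarith)
  nlinarith

/-- `u` with exponent 3 and `v > u`. -/
lemma c1a_three {A u v T Q : ℤ} (hA : 7 ≤ A) (hAu : A ≤ 3 * u) (hu : 3 ≤ u) (huv : u + 2 ≤ v)
    (hT : v ^ 3 * (v - 1) ≤ T) (hQ : T * Q = A * (u ^ 2 + 1)) : False := by
  have hv3 : (u + 2) ^ 3 ≤ v ^ 3 := pow_le_pow_left₀ (by linarith) huv 3
  have h1 : (u + 2) ^ 3 * (u + 1) ≤ v ^ 3 * (v - 1) :=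
    mul_le_mul hv3 (by linarith) (by linarith) (pow_nonneg (by linarith) _)
  have hTpos : 0 < T := by
    have : 0 < (u + 2) ^ 3 * (u + 1) := by positivity
    linarith
  have hA0 : 0 < A := by linarith
  have hM : 0 < A * (u ^ 2 + 1) := by positivity
  have h2 := (le_of_mul_eq hTpos hM hQ).2
  have h3 : A * (u ^ 2 + 1) ≤ 3 * u * (u ^ 2 + 1) := mul_le_mul_of_nonneg_right hAu (by positivity)
  nlinarith [pow_pos (by linarith : (0:ℤ) < u) 3, pow_pos (by linarith : (0:ℤ) < u) 4,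
    pow_pos (by linarith : (0:ℤ) < u) 2]

/-- `u` with exponent 2 and `v > u`. -/
lemma c1a_two {A u v T Q : ℤ} (hA : 7 ≤ A) (hAu : A ≤ 3 * u) (hu : 3 ≤ u) (huv : u + 2 ≤ v)
    (hT : v ^ 5 * (v - 1) ≤ T) (hQ : T * Q = A * (u ^ 2 + u + 1)) : False := by
  have hv3 : (u + 2) ^ 5 ≤ v ^ 5 := pow_le_pow_left₀ (by linarith) huv 5
  have h1 : (u + 2) ^ 5 * (u + 1) ≤ v ^ 5 * (v - 1) :=
    mul_le_mul hv3 (by linarith) (by linarith) (pow_nonneg (by linarith) _)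
  have hTpos : 0 < T := by
    have : 0 < (u + 2) ^ 5 * (u + 1) := by positivity
    linarith
  have hA0 : 0 < A := by linarith
  have hu0 : 0 < u := by linarith
  have hM : 0 < A * (u ^ 2 + u + 1) := by positivity
  have h2 := (le_of_mul_eq hTpos hM hQ).2
  have h3 : A * (u ^ 2 + u + 1) ≤ 3 * u * (u ^ 2 + u + 1) :=
    mul_le_mul_of_nonneg_right hAu (by positivity)
  have h4 : (u + 2) ^ 3 ≤ (u + 2) ^ 5 := pow_le_pow_right₀ (by linarith) (by norm_num)
  have h5 : (u + 2) ^ 3 * (u + 1) ≤ (u + 2) ^ 5 * (u + 1) :=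
    mul_le_mul_of_nonneg_right h4 (by linarith)
  nlinarith [pow_pos (by linarith : (0:ℤ) < u) 3, pow_pos (by linarith : (0:ℤ) < u) 4,
    pow_pos (by linarith : (0:ℤ) < u) 2]

/-- the bound `A ≤ 3 (v - 1)` if the exponent of `v` is at least 4. -/
lemma A_le' {A v u U V Su Sv : ℤ} (hA : 0 < A) (hu : 2 ≤ u) (hv : 3 ≤ v) (hU : u ^ 2 ≤ U)
    (hV : v ^ 4 ≤ V) (h1 : (u - 1) * Su = u * U - 1) (h2 : (v - 1) * Sv = v * V - 1)
    (hE : A * Su * Sv = (A + 3) * (U + 1) * (V + 1)) : A ≤ 3 * (v - 1) := by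
  have b1 : U + 1 < Su := S_gt hu hU h1
  have hU0 : 0 < U + 1 := by nlinarith
  have hV1 : v ^ 2 ≤ V := le_trans (by nlinarith [sq_nonneg v, sq_nonneg (v-1)]) hV
  have b2 : V + 1 < Sv := S_gt (by linarith) hV1 h2
  have hV0 : 0 < V + 1 := by nlinarith
  have c1 : (A * Sv) * (U + 1) < ((A + 3) * (V + 1)) * (U + 1) := by
    have t1 : (A * Sv) * (U + 1) < (A * Sv) * Su :=
      mul_lt_mul_of_pos_left b1 (mul_pos hA (by linarith))
    have t2 : (A * Sv) * Su = ((A + 3) * (V + 1)) * (U + 1) := by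
      calc (A * Sv) * Su = A * Su * Sv := by ring
        _ = _ := by rw [hE]; ring
    linarith
  have c2 : A * Sv < (A + 3) * (V + 1) := lt_of_mul_lt_mul_right c1 (by linarith)
  have c3 : A * (v * V - 1) < (A + 3) * (V + 1) * (v - 1) := by
    have : A * Sv * (v - 1) < (A + 3) * (V + 1) * (v - 1) := mul_lt_mul_of_pos_right c2 (by linarith)
    calc A * (v * V - 1) = A * Sv * (v - 1) := by rw [← h2]; ring
      _ < _ := this
  have c4 : (A - 3 * (v - 1)) * (V - v) < 3 * (v ^ 2 - 1) := by nlinarith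
  by_contra hc
  have c5 : 1 * (V - v) ≤ (A - 3 * (v - 1)) * (V - v) := by
    apply mul_le_mul_of_nonneg_right (by linarith)
    nlinarith
  have c6 : v ^ 4 - v < 3 * (v ^ 2 - 1) := by linarith
  nlinarith [sq_nonneg (v ^ 2), mul_pos (by linarith : (0:ℤ) < v) (by linarith : (0:ℤ) < v - 1),
    mul_le_mul hv hv (by norm_num) (by linarith)]

/-- the gap `k = 3(v-1) - A` is at least 3. -/
lemma gap {A v : ℤ} (hAodd : A % 2 = 1) (hA3 : A % 3 ≠ 2) (hv : v % 2 = 1) (h : A ≤ 3 * (v - 1)) :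
    A + 3 ≤ 3 * (v - 1) := by
  omega

/-- `v < u`, `u` with exponent 2 or 3, exponent of `v` at least 7. -/
lemma c1b_big {A u v T N D : ℤ} (hA : 7 ≤ A) (hv : 3 ≤ v) (huv : v + 2 ≤ u)
    (hk : A + 3 ≤ 3 * (v - 1)) (hT : v ^ 5 * (v - 1) ≤ T)
    (hND : (N = u ^ 2 + 1 ∧ D = N - u) ∨ (N = u ^ 2 + u + 1 ∧ D = N - u))
    (hQ : T * (v * A * N - (v - 1) * (A + 3) * D) = A * N) : False := by
  have hTpos : 0 < T := by
    have : 0 < v ^ 5 * (v - 1) := mul_pos (by positivity) (by linarith)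
    linarith
  have hN : u * u < N := by rcases hND with ⟨h, _⟩ | ⟨h, _⟩ <;> nlinarith
  have hNpos : 0 < N := by nlinarith
  have hD : D = N - u := by rcases hND with ⟨_, h⟩ | ⟨_, h⟩ <;> exact h
  obtain ⟨hq1, hq2⟩ := le_of_mul_eq hTpos (by positivity) hQ
  -- the quotient
  have e : v * A * N - (v - 1) * (A + 3) * D
      = u * ((v - 1) * (A + 3)) - (3 * (v - 1) - A) * N := by rw [hD]; ring
  rw [e] at hq1
  have hk3 : 3 ≤ 3 * (v - 1) - A := by linarith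
  -- u + 1 or u is less than (v-1)^2
  have h1 : 3 * N < u * ((v - 1) * (3 * (v - 1))) := by
    have t1 : (3 * (v - 1) - A) * N < u * ((v - 1) * (A + 3)) := by linarith
    have t2 : 3 * N ≤ (3 * (v - 1) - A) * N := mul_le_mul_of_nonneg_right hk3 hNpos.le
    have t3 : u * ((v - 1) * (A + 3)) ≤ u * ((v - 1) * (3 * (v - 1))) := by
      apply mul_le_mul_of_nonneg_left _ (by linarith)
      exact mul_le_mul_of_nonneg_left (by linarith) (by linarith)
    linarith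
  have h2 : N < u * (v - 1) ^ 2 := by nlinarith
  have h3 : u < (v - 1) ^ 2 := by
    have : u * u < u * (v - 1) ^ 2 := by linarith
    exact lt_of_mul_lt_mul_left this (by linarith)
  have h4 : N < (v - 1) ^ 2 * (v - 1) ^ 2 := by
    have : u * (v - 1) ^ 2 < (v - 1) ^ 2 * (v - 1) ^ 2 :=
      mul_lt_mul_of_pos_right h3 (by linarith)
    linarith
  have h5 : A * N < 3 * v * ((v - 1) ^ 2 * (v - 1) ^ 2) := by
    have t1 : A * N ≤ 3 * v * N := mul_le_mul_of_nonneg_right (by linarith) hNpos.le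
    have t2 : 3 * v * N < 3 * v * ((v - 1) ^ 2 * (v - 1) ^ 2) :=
      mul_lt_mul_of_pos_left h4 (by linarith)
    linarith
  have h6 : v ^ 5 * (v - 1) < 3 * v * ((v - 1) ^ 2 * (v - 1) ^ 2) := by linarith
  have h7 : (v * (v - 1)) * v ^ 4 < (v * (v - 1)) * (3 * (v - 1) ^ 3) := by nlinarith
  have h8 : v ^ 4 < 3 * (v - 1) ^ 3 := lt_of_mul_lt_mul_left h7 (by nlinarith)
  have h9 : (v - 1) ^ 3 ≤ v ^ 3 := pow_le_pow_left₀ (by linarith) (by linarith) 3
  have h10 : 3 * v ^ 3 ≤ v * v ^ 3 := mul_le_mul_of_nonneg_right hv (by positivity)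
  nlinarith

lemma poly1 {v : ℤ} (hv : 5 ≤ v) (h : v ^ 3 ≤ 2 * (3 * v - 6) * (v - 1)) : False := by
  nlinarith [mul_nonneg (by linarith : (0:ℤ) ≤ v - 5) (sq_nonneg v), sq_nonneg (v - 5)]

lemma poly2 {w : ℤ} (hw : 14 ≤ w) (h : (w + 1) ^ 3 ≤ 16 * w ^ 2 + 3) : False := by
  nlinarith [mul_nonneg (by linarith : (0:ℤ) ≤ w - 14) (sq_nonneg w), sq_nonneg (w - 14)]

lemma fin5 {u j A k T : ℤ} {v : ℤ} (hA : A = 7 ∨ A = 15 ∨ A = 31)
    (hv : v = 5 ∨ v = 7 ∨ v = 9 ∨ v = 11 ∨ v = 13) (hk : k = 3 * (v - 1) - A) (hk3 : 3 ≤ k)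
    (hT : T = v ^ 4 - v ^ 3 + v ^ 2 - v + 1) (hu : v + 2 ≤ u) (hu2 : u ≤ 2 * k)
    (hQ : T * (u * j - k) = A * (u ^ 2 + 1)) : False := by
  rcases hv with rfl | rfl | rfl | rfl | rfl <;> rcases hA with rfl | rfl | rfl <;>
    subst hk <;> norm_num at hT <;> subst hT <;>
    first
      | omega
      | (interval_cases u <;> omega)

/-- `v < u`, `u` with exponent 3, exponent of `v` equal to 5. -/
lemma c1b_five {A u v T : ℤ} (hA : 7 ≤ A) (hAval : A ≤ 33 → A = 7 ∨ A = 15 ∨ A = 31) (hv : 3 ≤ v)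
    (hvodd : v % 2 = 1) (huv : v + 2 ≤ u)
    (hk : A + 3 ≤ 3 * (v - 1)) (hT : (v + 1) * T = v ^ 5 + 1)
    (hQ : T * (v * A * (u ^ 2 + 1) - (v - 1) * (A + 3) * (u ^ 2 - u + 1)) = A * (u ^ 2 + 1)) :
    False := by
  have hT' : T = v ^ 4 - v ^ 3 + v ^ 2 - v + 1 := by
    have : (v + 1) * T = (v + 1) * (v ^ 4 - v ^ 3 + v ^ 2 - v + 1) := by rw [hT]; ring
    exact mul_left_cancel₀ (by linarith) this
  have hv5 : 5 ≤ v := by omega
  have hTge : v ^ 3 * (v - 1) ≤ T := by rw [hT']; nlinarith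
  have hTpos : 0 < T := by
    have : 0 < v ^ 3 * (v - 1) := mul_pos (by positivity) (by linarith)
    linarith
  obtain ⟨hq1, hq2⟩ := le_of_mul_eq hTpos (by positivity) hQ
  set k := 3 * (v - 1) - A with hkdef
  set j := (v - 1) * (A + 3) - k * u with hjdef
  have e : v * A * (u ^ 2 + 1) - (v - 1) * (A + 3) * (u ^ 2 - u + 1) = u * j - k := by
    rw [hjdef, hkdef]; ring
  rw [e] at hq1 hQ
  have hk3 : 3 ≤ k := by linarith
  have hj : 1 ≤ j := by
    by_contra hc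
    have : u * j ≤ 0 := mul_nonpos_of_nonneg_of_nonpos (by linarith) (by linarith)
    linarith
  -- `u < (v-1)^2`
  have hu1 : u < (v - 1) ^ 2 := by
    have t1 : k * u < (v - 1) * (A + 3) := by linarith
    have t2 : (v - 1) * (A + 3) ≤ (v - 1) * (3 * (v - 1)) :=
      mul_le_mul_of_nonneg_left (by linarith) (by linarith)
    have t3 : 3 * u ≤ k * u := mul_le_mul_of_nonneg_right hk3 (by linarith)
    nlinarith
  -- step 1: `u ≤ 2k`
  have hu2 : u ≤ 2 * k := by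
    by_contra hc
    have t0 : u * 1 ≤ u * j := mul_le_mul_of_nonneg_left hj (by linarith)
    have t1 : T * (u - k) ≤ A * (u ^ 2 + 1) := by
      rw [← hQ]; exact mul_le_mul_of_nonneg_left (by linarith) hTpos.le
    have t2 : T * (u + 1) ≤ 2 * (T * (u - k)) := by
      have : T * (u + 1) ≤ T * (2 * (u - k)) := mul_le_mul_of_nonneg_left (by linarith) hTpos.le
      linarith
    have t3 : T * (u + 1) ≤ (2 * A * u) * (u + 1) := by nlinarith
    have t4 : T ≤ 2 * A * u := le_of_mul_le_mul_right t3 (by linarith)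
    have t5 : 2 * A * u ≤ 2 * (3 * v - 6) * (v - 1) ^ 2 := by
      apply mul_le_mul (by linarith) hu1.le (by linarith) (by linarith)
    have t6 : v ^ 3 * (v - 1) ≤ 2 * (3 * v - 6) * (v - 1) ^ 2 := by linarith
    have t7 : (v - 1) * v ^ 3 ≤ (v - 1) * (2 * (3 * v - 6) * (v - 1)) := by linarith
    have t8 : v ^ 3 ≤ 2 * (3 * v - 6) * (v - 1) := le_of_mul_le_mul_left t7 (by linarith)
    exact poly1 hv5 t8
  -- step 2: `v ≤ 13`
  have hv13 : v ≤ 14 := by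
    by_contra hc
    have t1 : T ≤ A * (4 * k ^ 2 + 1) := by
      have : u ^ 2 ≤ (2 * k) ^ 2 := pow_le_pow_left₀ (by linarith) hu2 2
      have t : A * (u ^ 2 + 1) ≤ A * (4 * k ^ 2 + 1) := mul_le_mul_of_nonneg_left (by linarith) (by linarith)
      linarith
    have hA' : A = 3 * (v - 1) - k := by rw [hkdef]; ring
    obtain ⟨w, hw⟩ : ∃ w : ℤ, w = v - 1 := ⟨_, rfl⟩
    have hv' : v = w + 1 := by linarith
    have t2 : 0 ≤ (k - 2 * w) ^ 2 * (k + w) := mul_nonneg (sq_nonneg _) (by linarith)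
    have t3 : A * (4 * k ^ 2 + 1) ≤ 16 * w ^ 3 + 3 * w := by
      rw [hA', ← hw]; linarith
    have t4 : (w + 1) ^ 3 * w ≤ 16 * w ^ 3 + 3 * w := by
      have : v ^ 3 * (v - 1) = (w + 1) ^ 3 * w := by rw [hv']; ring
      linarith
    have t5 : w * (w + 1) ^ 3 ≤ w * (16 * w ^ 2 + 3) := by linarith
    have t6 : (w + 1) ^ 3 ≤ 16 * w ^ 2 + 3 := le_of_mul_le_mul_left t5 (by linarith)
    exact poly2 (by linarith) t6
  have hA33 : A ≤ 33 := by linarith
  have hvv : v = 5 ∨ v = 7 ∨ v = 9 ∨ v = 11 ∨ v = 13 := by omega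
  exact fin5 (hAval hA33) hvv hkdef hk3 hT' huv hu2 hQ

end Pool.Agent.NonUnitary
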