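import Pool.Agent.NonUnitary.CaseOne

/-!
The case in which both odd primes `q < s` have exponent at least 4.
-/

namespace Pool.Agent.NonUnitary

lemma eq_cleared {A q s U V Sq Ss : ℤ} (h1 : (q - 1) * Sq = q * U - 1)
    (h2 : (s - 1) * Ss = s * V - 1) (hE : A * Sq * Ss = (A + 3) * (U + 1) * (V + 1)) :
    A * (q * U - 1) * (s * V - 1) = (A + 3) * (q - 1) * (s - 1) * ((U + 1) * (V + 1)) := by
  rw [← h1, ← h2]
  calc A * ((q - 1) * Sq) * ((s - 1) * Ss) = (q - 1) * (s - 1) * (A * Sq * Ss) := by ring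
    _ = _ := by rw [hE]; ring

lemma I0 {A q s U V Sq Ss : ℤ} (hA : 0 < A) (hq : 2 ≤ q) (hs : 2 ≤ s) (hU : 1 ≤ U) (hV : 1 ≤ V)
    (h1 : (q - 1) * Sq = q * U - 1)
    (h2 : (s - 1) * Ss = s * V - 1) (hE : A * Sq * Ss = (A + 3) * (U + 1) * (V + 1)) :
    (U + 1) * (V + 1) ≤ A * (q * (s + 1) * (U + 1) + s * (q + 1) * (V + 1)) := by
  have e := eq_cleared h1 h2 hE
  have key : (A * q * s - (A + 3) * (q - 1) * (s - 1)) * ((U + 1) * (V + 1))
      = A * (q * s * (U + V + 1) + q * U + s * V - 1) := by linear_combination e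
  have hqs : 0 < q * s := by positivity
  have hpos : 0 < q * s * (U + V + 1) + q * U + s * V - 1 := by
    have t1 : 0 < q * s * (U + V + 1) := mul_pos hqs (by linarith)
    have t2 : 1 ≤ q * U := by nlinarith
    have t3 : 0 ≤ s * V := by positivity
    linarith
  have hP : 0 < (U + 1) * (V + 1) := by positivity
  have hC : 0 < A * q * s - (A + 3) * (q - 1) * (s - 1) := by
    have : 0 < (A * q * s - (A + 3) * (q - 1) * (s - 1)) * ((U + 1) * (V + 1)) := by
      rw [key]; positivity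
    by_contra hc
    have h' := mul_nonpos_of_nonpos_of_nonneg (not_lt.mp hc) hP.le
    linarith
  have h3 : 1 * ((U + 1) * (V + 1)) ≤
      (A * q * s - (A + 3) * (q - 1) * (s - 1)) * ((U + 1) * (V + 1)) :=
    mul_le_mul_of_nonneg_right (by linarith) hP.le
  rw [key, one_mul] at h3
  refine le_trans h3 (mul_le_mul_of_nonneg_left ?_ hA.le)
  have : 0 ≤ q * s := hqs.le
  nlinarith

lemma G2 {A q s U V Sq Ss : ℤ} (hA : 0 < A) (hAq : A ≤ 3 * q) (hq : 3 ≤ q) (hs : q + 2 ≤ s)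
    (hU : 1 ≤ U) (hV : s ^ 4 ≤ V)
    (h1 : (q - 1) * Sq = q * U - 1)
    (h2 : (s - 1) * Ss = s * V - 1) (hE : A * Sq * Ss = (A + 3) * (U + 1) * (V + 1)) :
    U + 1 < 2 * A * s * (q + 1) := by
  have hs5 : 5 ≤ s := by linarith
  have hV1 : 1 ≤ V := le_trans (by have := one_le_pow₀ (by linarith : (1:ℤ) ≤ s) (n := 4); linarith) hV
  have h0 := I0 hA (by linarith) (by linarith) hU hV1 h1 h2 hE
  -- V + 1 > 2 A q (s+1)
  have hii : 2 * A * q * (s + 1) < V + 1 := by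
    have t1 : 2 * A * q * (s + 1) ≤ 2 * (3 * q) * q * (s + 1) := by
      apply mul_le_mul_of_nonneg_right _ (by linarith)
      apply mul_le_mul_of_nonneg_right _ (by linarith)
      linarith
    have t2 : q ^ 2 ≤ (s - 2) ^ 2 := pow_le_pow_left₀ (by linarith) (by linarith) 2
    have t3 : q ^ 2 * (s + 1) ≤ (s - 2) ^ 2 * (s + 1) := mul_le_mul_of_nonneg_right t2 (by linarith)
    have t4 : 6 * ((s - 2) ^ 2 * (s + 1)) < s ^ 4 + 1 := by
      nlinarith [sq_nonneg (s * (s - 3)), sq_nonneg s, mul_le_mul hs5 hs5 (by norm_num) (by linarith)]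
    linarith
  by_contra hc
  have t1 : A * (q * (s + 1) * (U + 1)) * 2 < (U + 1) * (V + 1) := by
    have := mul_lt_mul_of_pos_right hii (by linarith : (0:ℤ) < U + 1)
    linarith
  have t2 : 2 * A * s * (q + 1) * (V + 1) ≤ (U + 1) * (V + 1) :=
    mul_le_mul_of_nonneg_right (by linarith) (by linarith)
  linarith

lemma G3 {A N D s V Ss : ℤ} (hA : 0 < A) (hN : 0 < N) (hs : 2 ≤ s) (hV : 1 ≤ V)
    (h2 : (s - 1) * Ss = s * V - 1) (hE : A * N * Ss = (A + 3) * D * (V + 1)) :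
    V + 1 ≤ (s + 1) * (A * N) := by
  have e : (V + 1) * (s * A * N - (s - 1) * (A + 3) * D) = (s + 1) * (A * N) := by
    have e1 : (A + 3) * D * (V + 1) * (s - 1) = A * N * (s * V - 1) := by
      rw [← hE, ← h2]; ring
    linear_combination (-1) * e1
  exact (le_of_mul_eq (by linarith) (by positivity) e).2

/-- bound without extra factor -/
lemma G4 {A q s U V Sq Ss : ℤ} (hA : 0 < A) (hAq : A ≤ 3 * q) (hq : 3 ≤ q) (hs : q + 2 ≤ s)
    (hU : 1 ≤ U) (hV : s ^ 4 ≤ V) (hSq : 0 < Sq)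
    (h1 : (q - 1) * Sq = q * U - 1)
    (h2 : (s - 1) * Ss = s * V - 1) (hE : A * Sq * Ss = (A + 3) * (U + 1) * (V + 1)) :
    V + 1 < 36 * q ^ 3 * (s * (s + 1)) := by
  have hs5 : 5 ≤ s := by linarith
  have hV1 : 1 ≤ V := le_trans (by have := one_le_pow₀ (by linarith : (1:ℤ) ≤ s) (n := 4); linarith) hV
  have g2 := G2 hA hAq hq hs hU hV h1 h2 hE
  have g3 := G3 hA hSq (by linarith) hV1 h2 hE
  have ss : 0 < s * (s + 1) := by positivity
  have c1 : (q - 1) * (V + 1) ≤ (s + 1) * A * (q * U - 1) := by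
    rw [← h1]
    have := mul_le_mul_of_nonneg_left g3 (by linarith : (0:ℤ) ≤ q - 1)
    linarith
  have c2 : (s + 1) * A * (q * U - 1) < (s + 1) * A * (q * (2 * A * s * (q + 1))) := by
    apply mul_lt_mul_of_pos_left _ (by positivity)
    have := mul_lt_mul_of_pos_left g2 (by linarith : (0:ℤ) < q)
    linarith
  have c3 : A * A ≤ (3 * q) * (3 * q) := mul_le_mul hAq hAq hA.le (by linarith)
  have c4 : (s + 1) * A * (q * (2 * A * s * (q + 1))) ≤ 2 * ((3 * q) * (3 * q)) * (q * (q + 1) * (s * (s + 1))) := by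
    have : (A * A) * (q * (q + 1) * (s * (s + 1))) ≤ ((3 * q) * (3 * q)) * (q * (q + 1) * (s * (s + 1))) :=
      mul_le_mul_of_nonneg_right c3 (by positivity)
    linarith
  have c5 : 2 * ((3 * q) * (3 * q)) * (q * (q + 1) * (s * (s + 1))) ≤
      (q - 1) * (36 * q ^ 3 * (s * (s + 1))) := by
    have t : (18 * q ^ 3 * (s * (s + 1))) * (q + 1) ≤ (18 * q ^ 3 * (s * (s + 1))) * (2 * (q - 1)) :=
      mul_le_mul_of_nonneg_left (by linarith) (by positivity)
    linarith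
  have c6 : (q - 1) * (V + 1) < (q - 1) * (36 * q ^ 3 * (s * (s + 1))) := by linarith
  exact lt_of_mul_lt_mul_left c6 (by linarith)

/-- bound with the extra factor `q + 1` (odd exponent of `q`) -/
lemma G5 {A q s U V Sq Ss N D : ℤ} (hA : 0 < A) (hAq : A ≤ 3 * q) (hq : 3 ≤ q) (hs : q + 2 ≤ s)
    (hU : 1 ≤ U) (hV : s ^ 4 ≤ V) (hSq : 0 < Sq)
    (h1 : (q - 1) * Sq = q * U - 1)
    (h2 : (s - 1) * Ss = s * V - 1) (hE : A * Sq * Ss = (A + 3) * (U + 1) * (V + 1))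
    (hN : (q + 1) * N = Sq) (hD : (q + 1) * D = U + 1) :
    (q - 1) * (V + 1) < 2 * (A * A) * q * (s * (s + 1)) := by
  have hs5 : 5 ≤ s := by linarith
  have hV1 : 1 ≤ V := le_trans (by have := one_le_pow₀ (by linarith : (1:ℤ) ≤ s) (n := 4); linarith) hV
  have g2 := G2 hA hAq hq hs hU hV h1 h2 hE
  have hN0 : 0 < N := by
    rw [← hN] at hSq
    by_contra hc
    have h' := mul_nonpos_of_nonneg_of_nonpos (by linarith : (0:ℤ) ≤ q + 1) (not_lt.mp hc)
    linarith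
  have hE' : A * N * Ss = (A + 3) * D * (V + 1) := by
    have : (q + 1) * (A * N * Ss) = (q + 1) * ((A + 3) * D * (V + 1)) := by
      calc (q + 1) * (A * N * Ss) = A * ((q + 1) * N) * Ss := by ring
        _ = (A + 3) * ((q + 1) * D) * (V + 1) := by rw [hN, hD, hE]
        _ = _ := by ring
    exact mul_left_cancel₀ (by linarith) this
  have g3 := G3 hA hN0 (by linarith) hV1 h2 hE'
  have ss : 0 < s * (s + 1) := by positivity
  have c1 : (q + 1) * ((q - 1) * (V + 1)) ≤ (s + 1) * A * (q * U - 1) := by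
    rw [← h1, ← hN]
    have := mul_le_mul_of_nonneg_left g3 (by nlinarith : (0:ℤ) ≤ (q + 1) * (q - 1))
    linarith
  have c2 : (s + 1) * A * (q * U - 1) < (s + 1) * A * (q * (2 * A * s * (q + 1))) := by
    apply mul_lt_mul_of_pos_left _ (by positivity)
    have := mul_lt_mul_of_pos_left g2 (by linarith : (0:ℤ) < q)
    linarith
  have c3 : (q + 1) * ((q - 1) * (V + 1)) < (q + 1) * (2 * (A * A) * q * (s * (s + 1))) := by
    linarith
  exact lt_of_mul_lt_mul_left c3 (by linarith)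

/-- consequence: `V + 1 < 27 q^2 s (s+1)` -/
lemma G6 {A q s V : ℤ} (hA : 0 < A) (hAq : A ≤ 3 * q) (hq : 3 ≤ q) (hs : q + 2 ≤ s)
    (h : (q - 1) * (V + 1) < 2 * (A * A) * q * (s * (s + 1))) :
    V + 1 < 27 * q ^ 2 * (s * (s + 1)) := by
  have hs0 : 0 < s := by linarith
  have ss : 0 < s * (s + 1) := by positivity
  have c3 : A * A ≤ (3 * q) * (3 * q) := mul_le_mul hAq hAq hA.le (by linarith)
  have c4 : 2 * (A * A) * q * (s * (s + 1)) ≤ 2 * ((3 * q) * (3 * q)) * q * (s * (s + 1)) := by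
    have : (A * A) * (q * (s * (s + 1))) ≤ ((3 * q) * (3 * q)) * (q * (s * (s + 1))) :=
      mul_le_mul_of_nonneg_right c3 (by positivity)
    linarith
  have c5 : 2 * ((3 * q) * (3 * q)) * q * (s * (s + 1)) ≤ (q - 1) * (27 * q ^ 2 * (s * (s + 1))) := by
    have t : (9 * q ^ 2 * (s * (s + 1))) * (2 * q) ≤ (9 * q ^ 2 * (s * (s + 1))) * (3 * (q - 1)) :=
      mul_le_mul_of_nonneg_left (by linarith) (by positivity)
    linarith
  have c6 : (q - 1) * (V + 1) < (q - 1) * (27 * q ^ 2 * (s * (s + 1))) := by linarith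
  exact lt_of_mul_lt_mul_left c6 (by linarith)

/-- (alpha): exponent of the larger prime at least 7. -/
lemma alpha {A q s U V Sq Ss : ℤ} (hA : 0 < A) (hAq : A ≤ 3 * q) (hq : 3 ≤ q) (hs : q + 2 ≤ s)
    (hU : 1 ≤ U) (hV : s ^ 7 ≤ V) (hSq : 0 < Sq)
    (h1 : (q - 1) * Sq = q * U - 1)
    (h2 : (s - 1) * Ss = s * V - 1) (hE : A * Sq * Ss = (A + 3) * (U + 1) * (V + 1)) : False := by
  have hs5 : 5 ≤ s := by linarith
  have hV4 : s ^ 4 ≤ V := le_trans (pow_le_pow_right₀ (by linarith) (by norm_num)) hV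
  have g := G4 hA hAq hq hs hU hV4 hSq h1 h2 hE
  have t1 : q ^ 3 ≤ (s - 2) ^ 3 := pow_le_pow_left₀ (by linarith) (by linarith) 3
  have t2 : 36 * q ^ 3 * (s * (s + 1)) ≤ 36 * (s - 2) ^ 3 * (s * (s + 1)) := by
    apply mul_le_mul_of_nonneg_right _ (by positivity)
    linarith
  have t3 : s * s ^ 6 < s * (36 * ((s - 2) ^ 3 * (s + 1))) := by
    have : s ^ 7 = s * s ^ 6 := by ring
    linarith
  have t4 : s ^ 6 < 36 * ((s - 2) ^ 3 * (s + 1)) := lt_of_mul_lt_mul_left t3 (by linarith)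
  rcases eq_or_lt_of_le hs5 with h | h
  · rw [← h] at t4; norm_num at t4
  · have h6 : 6 ≤ s := by linarith
    have t5 : (s - 2) ^ 3 * (s + 1) ≤ s ^ 4 := by
      have a1 : (s - 2) * (s + 1) ≤ s ^ 2 := by nlinarith
      have a2 : (s - 2) ^ 2 ≤ s ^ 2 := pow_le_pow_left₀ (by linarith) (by linarith) 2
      have a3 : ((s - 2) * (s + 1)) * (s - 2) ^ 2 ≤ s ^ 2 * s ^ 2 :=
        mul_le_mul a1 a2 (by positivity) (by positivity)
      calc (s - 2) ^ 3 * (s + 1) = ((s - 2) * (s + 1)) * (s - 2) ^ 2 := by ring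
        _ ≤ s ^ 2 * s ^ 2 := a3
        _ = s ^ 4 := by ring
    have t6 : 36 * s ^ 4 ≤ s ^ 2 * s ^ 4 := by
      apply mul_le_mul_of_nonneg_right _ (by positivity)
      nlinarith
    have t7 : s ^ 6 = s ^ 2 * s ^ 4 := by ring
    linarith

/-- (beta): exponent of the smaller prime odd and at least 7. -/
lemma beta {A q s U V Sq Ss N D : ℤ} (hA : 0 < A) (hAq : A ≤ 3 * q) (hq : 3 ≤ q) (hs : q + 2 ≤ s)
    (hU : q ^ 7 ≤ U) (hV : s ^ 4 ≤ V) (hSq : 0 < Sq)
    (h1 : (q - 1) * Sq = q * U - 1)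
    (h2 : (s - 1) * Ss = s * V - 1) (hE : A * Sq * Ss = (A + 3) * (U + 1) * (V + 1))
    (hN : (q + 1) * N = Sq) (hD : (q + 1) * D = U + 1) : False := by
  have hs5 : 5 ≤ s := by linarith
  have hU1 : 1 ≤ U := le_trans (one_le_pow₀ (by linarith : (1:ℤ) ≤ q)) hU
  have g2 := G2 hA hAq hq hs hU1 hV h1 h2 hE
  have g6 := G6 hA hAq hq hs (G5 hA hAq hq hs hU1 hV hSq h1 h2 hE hN hD)
  -- s^3 < 27 q^2 (s+1)
  have a1 : s * s ^ 3 < s * (27 * q ^ 2 * (s + 1)) := by
    have : s ^ 4 = s * s ^ 3 := by ring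
    linarith
  have a2 : s ^ 3 < 27 * q ^ 2 * (s + 1) := lt_of_mul_lt_mul_left a1 (by linarith)
  have a3 : s * (5 * s ^ 2) < s * (162 * q ^ 2) := by
    have : 27 * q ^ 2 * (5 * (s + 1)) ≤ 27 * q ^ 2 * (6 * s) :=
      mul_le_mul_of_nonneg_left (by linarith) (by positivity)
    linarith
  have a4 : 5 * s ^ 2 < 162 * q ^ 2 := lt_of_mul_lt_mul_left a3 (by linarith)
  -- q^5 < 8 s
  have b1 : q * q ^ 6 < q * (6 * s * (q + 1)) := by
    have t : 2 * A * s * (q + 1) ≤ 2 * (3 * q) * s * (q + 1) := by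
      apply mul_le_mul_of_nonneg_right _ (by linarith)
      apply mul_le_mul_of_nonneg_right _ (by linarith)
      linarith
    have : q ^ 7 = q * q ^ 6 := by ring
    linarith
  have b2 : q ^ 6 < 6 * s * (q + 1) := lt_of_mul_lt_mul_left b1 (by linarith)
  have b3 : q * q ^ 5 < q * (8 * s) := by
    have : 6 * s * (3 * (q + 1)) ≤ 6 * s * (4 * q) :=
      mul_le_mul_of_nonneg_left (by linarith) (by linarith)
    have : q ^ 6 = q * q ^ 5 := by ring
    linarith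
  have b4 : q ^ 5 < 8 * s := lt_of_mul_lt_mul_left b3 (by linarith)
  have b5 : (q ^ 5) ^ 2 < (8 * s) ^ 2 := pow_lt_pow_left₀ b4 (by positivity) (by norm_num)
  have b6 : q ^ 2 * (5 * q ^ 8) < q ^ 2 * 10368 := by
    have : (q ^ 5) ^ 2 = q ^ 2 * q ^ 8 := by ring
    have : (8 * s) ^ 2 = 64 * s ^ 2 := by ring
    linarith
  have b7 : 5 * q ^ 8 < 10368 := lt_of_mul_lt_mul_left b6 (by positivity)
  have b8 : (3:ℤ) ^ 8 ≤ q ^ 8 := pow_le_pow_left₀ (by norm_num) hq 8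
  norm_num at b8
  linarith

/-- (gamma): both exponents odd and at least 5. -/
lemma gamma {A q s Sq Ss N D : ℤ} {b e : ℕ} (hA : 7 ≤ A) (hAq : A ≤ 3 * q)
    (hAval : A ≤ 33 → A = 7 ∨ A = 15 ∨ A = 31) (hq : 3 ≤ q) (hqodd : q % 2 = 1)
    (hs : q + 2 ≤ s) (hb : 5 ≤ b) (he : 5 ≤ e) (hSq : 0 < Sq)
    (h1 : (q - 1) * Sq = q * q ^ b - 1)
    (h2 : (s - 1) * Ss = s * s ^ e - 1) (hE : A * Sq * Ss = (A + 3) * (q ^ b + 1) * (s ^ e + 1))
    (hN : (q + 1) * N = Sq) (hD : (q + 1) * D = q ^ b + 1) : False := by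
  have hs5 : 5 ≤ s := by linarith
  have hA0 : 0 < A := by linarith
  have hU5 : q ^ 5 ≤ q ^ b := pow_le_pow_right₀ (by linarith) hb
  have hV5 : s ^ 5 ≤ s ^ e := pow_le_pow_right₀ (by linarith) he
  have hU1 : 1 ≤ q ^ b := one_le_pow₀ (by linarith)
  have hV : s ^ 4 ≤ s ^ e := pow_le_pow_right₀ (by linarith) (by linarith)
  have g2 := G2 hA0 hAq hq hs hU1 hV h1 h2 hE
  have g5 := G5 hA0 hAq hq hs hU1 hV hSq h1 h2 hE hN hD
  have g6 := G6 hA0 hAq hq hs g5
  have a1 : s * s ^ 4 < s * (27 * q ^ 2 * (s + 1)) := by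
    have : s ^ 5 = s * s ^ 4 := by ring
    linarith
  have a2 : s ^ 4 < 27 * q ^ 2 * (s + 1) := lt_of_mul_lt_mul_left a1 (by linarith)
  have a3 : s * (5 * s ^ 3) < s * (162 * q ^ 2) := by
    have : 27 * q ^ 2 * (5 * (s + 1)) ≤ 27 * q ^ 2 * (6 * s) :=
      mul_le_mul_of_nonneg_left (by linarith) (by positivity)
    linarith
  have a4 : 5 * s ^ 3 < 162 * q ^ 2 := lt_of_mul_lt_mul_left a3 (by linarith)
  have b1 : q * q ^ 4 < q * (6 * s * (q + 1)) := by
    have t : 2 * A * s * (q + 1) ≤ 2 * (3 * q) * s * (q + 1) := by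
      apply mul_le_mul_of_nonneg_right _ (by linarith)
      apply mul_le_mul_of_nonneg_right _ (by linarith)
      linarith
    have : q ^ 5 = q * q ^ 4 := by ring
    linarith
  have b2 : q ^ 4 < 6 * s * (q + 1) := lt_of_mul_lt_mul_left b1 (by linarith)
  have b3 : q * q ^ 3 < q * (8 * s) := by
    have : 6 * s * (3 * (q + 1)) ≤ 6 * s * (4 * q) :=
      mul_le_mul_of_nonneg_left (by linarith) (by linarith)
    have : q ^ 4 = q * q ^ 3 := by ring
    linarith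
  have b4 : q ^ 3 < 8 * s := lt_of_mul_lt_mul_left b3 (by linarith)
  have b5 : (q ^ 3) ^ 3 < (8 * s) ^ 3 := pow_lt_pow_left₀ b4 (by positivity) (by norm_num)
  have b6 : q ^ 2 * (5 * q ^ 7) < q ^ 2 * 82944 := by
    have : (q ^ 3) ^ 3 = q ^ 2 * q ^ 7 := by ring
    have : (8 * s) ^ 3 = 512 * s ^ 3 := by ring
    linarith
  have b7 : 5 * q ^ 7 < 82944 := lt_of_mul_lt_mul_left b6 (by positivity)
  have hq4 : q < 5 := by
    by_contra hc
    have b8 : (5:ℤ) ^ 7 ≤ q ^ 7 := pow_le_pow_left₀ (by norm_num) (by linarith) 7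
    norm_num at b8
    linarith
  obtain rfl : q = 3 := by omega
  have hA7 : A = 7 := by
    rcases hAval (by linarith) with h | h | h <;> linarith
  subst hA7
  have hs' : s = 5 := by
    by_contra hc
    have h6 : 6 ≤ s := by omega
    have c1 : s * (s * s ^ 3) < s * (147 * (s + 1)) := by
      have : s ^ 5 = s * (s * s ^ 3) := by ring
      linarith
    have c2 : s * s ^ 3 < 147 * (s + 1) := lt_of_mul_lt_mul_left c1 (by linarith)
    have c3 : (6:ℤ) ^ 3 ≤ s ^ 3 := pow_le_pow_left₀ (by norm_num) h6 3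
    have c4 : s * 6 ^ 3 ≤ s * s ^ 3 := mul_le_mul_of_nonneg_left c3 (by linarith)
    norm_num at c4
    linarith
  subst hs'
  have hb' : b = 5 := by
    by_contra hc
    have h6 : 6 ≤ b := by omega
    have : (3:ℤ) ^ 6 ≤ 3 ^ b := pow_le_pow_right₀ (by norm_num) h6
    norm_num at this g2
    linarith
  have he' : e = 5 := by
    by_contra hc
    have h6 : 6 ≤ e := by omega
    have : (5:ℤ) ^ 6 ≤ 5 ^ e := pow_le_pow_right₀ (by norm_num) h6
    norm_num at this g5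
    linarith
  subst hb' he'
  norm_num at h1 h2 hE
  have hSq' : Sq = 364 := by linarith
  have hSs' : Ss = 3906 := by linarith
  subst hSq' hSs'
  norm_num at hE

end Pool.Agent.NonUnitary
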