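import Pool.Agent.NonUnitary.CoreTwo

/-!
No solutions with `2` and two odd primes: parity part.
-/

namespace Pool.Agent.NonUnitary

open Finset

lemma S_three (u : ℤ) : S u 3 = (u + 1) * (u ^ 2 + 1) := by simp [S, sum_range_succ]; ring

lemma S_five (u : ℤ) : S u 5 = (u + 1) * (u ^ 4 + u ^ 2 + 1) := by simp [S, sum_range_succ]; ring

lemma odd_S {u : ℤ} {x : ℕ} (hu : Odd u) (hx : x % 2 = 0) : Odd (S u x) := by
  obtain ⟨m, rfl⟩ : ∃ m, x = 2 * m := ⟨x / 2, by omega⟩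
  rw [Int.odd_iff]
  exact S_even_odd (Int.odd_iff.mp hu) m

/-- one exponent even, the other odd: the odd one is at least 7 -/
lemma par_mixed {A u v : ℤ} {x y : ℕ} (hA : Odd A) (hu : Odd u) (hv : Odd v) (hv3 : 3 ≤ v)
    (hx : x % 2 = 0) (hy : y % 2 = 1) (hy2 : 2 ≤ y)
    (hE : A * S u x * S v y = (A + 3) * (u ^ x + 1) * (v ^ y + 1)) : 7 ≤ y := by
  by_contra hc
  have hSu := odd_S hu hx
  obtain ⟨k1, hk1⟩ : Even (A + 3) := by
    obtain ⟨t, ht⟩ := hA; exact ⟨t + 2, by rw [ht]; ring⟩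
  obtain ⟨k2, hk2⟩ : Even (u ^ x + 1) := (hu.pow).add_one
  have hy' : y = 3 ∨ y = 5 := by omega
  rcases hy' with rfl | rfl
  · have h : A * S u x * (v ^ 2 + 1) = (A + 3) * (u ^ x + 1) * (v ^ 2 - v + 1) := by
      have : (v + 1) * (A * S u x * (v ^ 2 + 1)) =
          (v + 1) * ((A + 3) * (u ^ x + 1) * (v ^ 2 - v + 1)) := by
        calc (v + 1) * (A * S u x * (v ^ 2 + 1)) = A * S u x * S v 3 := by rw [S_three]; ring
          _ = _ := by rw [hE]; ring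
      exact mul_left_cancel₀ (by linarith) this
    obtain ⟨t, ht⟩ := hv
    have h2 : A * S u x * (2 * (t ^ 2 + t) + 1) = 2 * (k1 * k2 * (v ^ 2 - v + 1)) := by
      rw [hk1, hk2] at h
      have hv2 : v ^ 2 + 1 = 2 * (2 * (t ^ 2 + t) + 1) := by rw [ht]; ring
      rw [hv2] at h
      linarith
    have h3 : Odd (A * S u x * (2 * (t ^ 2 + t) + 1)) := (hA.mul hSu).mul ⟨t ^ 2 + t, rfl⟩
    rw [h2] at h3
    exact (Int.not_odd_iff_even.mpr ⟨_, two_mul _⟩) h3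
  · have h : A * S u x * (v ^ 4 + v ^ 2 + 1) = (A + 3) * (u ^ x + 1) * (v ^ 4 - v ^ 3 + v ^ 2 - v + 1) := by
      have : (v + 1) * (A * S u x * (v ^ 4 + v ^ 2 + 1)) =
          (v + 1) * ((A + 3) * (u ^ x + 1) * (v ^ 4 - v ^ 3 + v ^ 2 - v + 1)) := by
        calc (v + 1) * (A * S u x * (v ^ 4 + v ^ 2 + 1)) = A * S u x * S v 5 := by rw [S_five]; ring
          _ = _ := by rw [hE]; ring
      exact mul_left_cancel₀ (by linarith) this
    have h3 : Odd (A * S u x * (v ^ 4 + v ^ 2 + 1)) :=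
      (hA.mul hSu).mul (((hv.pow).add_odd (hv.pow)).add_one)
    rw [h, hk1] at h3
    exact (Int.not_odd_iff_even.mpr ⟨k1 * (u ^ x + 1) * (v ^ 4 - v ^ 3 + v ^ 2 - v + 1), by ring⟩) h3

/-- exponents cannot both be 3 -/
lemma par_three {A u v : ℤ} (hA4 : A % 4 = 3) (hu : Odd u) (hv : Odd v) (hu3 : 3 ≤ u) (hv3 : 3 ≤ v)
    (hE : A * S u 3 * S v 3 = (A + 3) * (u ^ 3 + 1) * (v ^ 3 + 1)) : False := by
  have h : A * (u ^ 2 + 1) * (v ^ 2 + 1) = (A + 3) * (u ^ 2 - u + 1) * (v ^ 2 - v + 1) := by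
    have : ((u + 1) * (v + 1)) * (A * (u ^ 2 + 1) * (v ^ 2 + 1)) =
        ((u + 1) * (v + 1)) * ((A + 3) * (u ^ 2 - u + 1) * (v ^ 2 - v + 1)) := by
      calc ((u + 1) * (v + 1)) * (A * (u ^ 2 + 1) * (v ^ 2 + 1)) = A * S u 3 * S v 3 := by
            rw [S_three, S_three]; ring
        _ = _ := by rw [hE]; ring
    exact mul_left_cancel₀ (by positivity) this
  obtain ⟨t, ht⟩ := hu
  obtain ⟨r, hr⟩ := hv
  obtain ⟨k, hk⟩ : ∃ k, A = 4 * k + 3 := ⟨A / 4, by omega⟩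
  have e1 : u ^ 2 + 1 = 2 * (2 * (t ^ 2 + t) + 1) := by rw [ht]; ring
  have e2 : v ^ 2 + 1 = 2 * (2 * (r ^ 2 + r) + 1) := by rw [hr]; ring
  have e3 : u ^ 2 - u + 1 = 2 * (2 * t ^ 2 + t) + 1 := by rw [ht]; ring
  have e4 : v ^ 2 - v + 1 = 2 * (2 * r ^ 2 + r) + 1 := by rw [hr]; ring
  have e5 : A + 3 = 2 * (2 * (k + 1) + 1) := by rw [hk]; ring
  rw [e1, e2, e3, e4, e5] at h
  have h2 : 2 * (A * (2 * (t ^ 2 + t) + 1) * (2 * (r ^ 2 + r) + 1)) =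
      (2 * (k + 1) + 1) * (2 * (2 * t ^ 2 + t) + 1) * (2 * (2 * r ^ 2 + r) + 1) := by linarith
  have h3 : Odd ((2 * (k + 1) + 1) * (2 * (2 * t ^ 2 + t) + 1) * (2 * (2 * r ^ 2 + r) + 1)) := by
    exact (Odd.mul ⟨k + 1, rfl⟩ ⟨2 * t ^ 2 + t, rfl⟩).mul ⟨2 * r ^ 2 + r, rfl⟩
  rw [← h2] at h3
  exact (Int.not_odd_iff_even.mpr ⟨_, two_mul _⟩) h3

lemma core_sym {a x y : ℕ} {u v : ℤ} (ha : 2 ≤ a) (hu3 : 3 ≤ u) (hv3 : 3 ≤ v) (hu : Odd u)
    (hv : Odd v) (huv : u ≠ v) (hx : 2 ≤ x) (hy : 2 ≤ y)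
    (hE : S 2 a * S u x * S v y = 2 * ((2 ^ a + 1) * (u ^ x + 1) * (v ^ y + 1))) : False := by
  obtain ⟨hA, hA4, hA3, hAval, hA5⟩ := A_vals ha
  set A := S 2 a with hAdef
  have hE1 : A * S u x * S v y = (A + 3) * (u ^ x + 1) * (v ^ y + 1) := by rw [hE, hA5]; ring
  have hE2 : A * S v y * S u x = (A + 3) * (v ^ y + 1) * (u ^ x + 1) := by
    calc A * S v y * S u x = A * S u x * S v y := by ring
      _ = _ := by rw [hE1]; ring
  have hAo : Odd A := by rw [Int.odd_iff]; omega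
  have hu1 := Int.odd_iff.mp hu
  have hv1 := Int.odd_iff.mp hv
  rcases Nat.mod_two_eq_zero_or_one x with hx0 | hx1 <;>
  rcases Nat.mod_two_eq_zero_or_one y with hy0 | hy1
  · -- both even
    have h3 : Odd (A * S u x * S v y) := (hAo.mul (odd_S hu hx0)).mul (odd_S hv hy0)
    rw [hE] at h3
    exact (Int.not_odd_iff_even.mpr ⟨_, two_mul _⟩) h3
  · have h7 := par_mixed hAo hu hv hv3 hx0 hy1 hy hE1
    exact core_asym hA hA4 hA3 hAval hu3 hv3 hu1 hv1 huv hx (by omega) hy1 (fun _ => h7) hE1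
  · have h7 := par_mixed hAo hv hu hu3 hy0 hx1 hx hE2
    exact core_asym hA hA4 hA3 hAval hv3 hu3 hv1 hu1 (Ne.symm huv) hy (by omega) hx1 (fun _ => h7) hE2
  · by_cases hy5 : 5 ≤ y
    · exact core_asym hA hA4 hA3 hAval hu3 hv3 hu1 hv1 huv hx hy5 hy1 (fun h => by omega) hE1
    · have hy3 : y = 3 := by omega
      by_cases hx5 : 5 ≤ x
      · exact core_asym hA hA4 hA3 hAval hv3 hu3 hv1 hu1 (Ne.symm huv) hy hx5 hx1
          (fun h => by omega) hE2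
      · have hx3 : x = 3 := by omega
        subst hx3 hy3
        exact par_three hA4 hu hv hu3 hv3 hE1

end Pool.Agent.NonUnitary
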