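import Pool.Agent.NonUnitary.CaseTwo

/-!
No solutions with `2` and two odd primes.
-/

namespace Pool.Agent.NonUnitary

open Finset

/-- `sigma (p^c)` as an integer -/
def S (p : ℤ) (c : ℕ) : ℤ := ∑ i ∈ range (c + 1), p ^ i

lemma S_geom (p : ℤ) (c : ℕ) : (p - 1) * S p c = p * p ^ c - 1 := by
  unfold S
  rw [mul_comm, geom_sum_mul]; ring

lemma S_pos {p : ℤ} (hp : 0 < p) (c : ℕ) : 0 < S p c := by
  unfold S
  exact Finset.sum_pos (fun i _ => pow_pos hp i) ⟨0, by simp⟩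

lemma S_even_odd {p : ℤ} (hp : p % 2 = 1) (m : ℕ) : S p (2 * m) % 2 = 1 := by
  induction m with
  | zero => simp [S]
  | succ n ih =>
    have e : S p (2 * (n + 1)) = S p (2 * n) + p ^ (2 * n + 1) * (1 + p) := by
      unfold S
      rw [show 2 * (n + 1) + 1 = (2 * n + 1) + 1 + 1 by ring, sum_range_succ, sum_range_succ]
      ring
    have h2 : (1 + p) % 2 = 0 := by omega
    have h3 : (p ^ (2 * n + 1) * (1 + p)) % 2 = 0 := by
      rw [Int.mul_emod, h2]; simp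
    omega

lemma S_odd_factor (p : ℤ) (m : ℕ) :
    (p + 1) * ∑ i ∈ range (m + 1), (p ^ 2) ^ i = S p (2 * m + 1) := by
  induction m with
  | zero => simp [S, sum_range_succ]; ring
  | succ n ih =>
    have e : S p (2 * (n + 1) + 1) = S p (2 * n + 1) + p ^ (2 * n + 2) * (1 + p) := by
      unfold S
      rw [show 2 * (n + 1) + 1 + 1 = (2 * n + 1 + 1) + 1 + 1 by ring, sum_range_succ, sum_range_succ]
      ring
    rw [sum_range_succ, mul_add, ih, e]
    ring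

lemma exists_N {p : ℤ} {c : ℕ} (hc : c % 2 = 1) : ∃ N, (p + 1) * N = S p c := by
  obtain ⟨m, rfl⟩ : ∃ m, c = 2 * m + 1 := ⟨c / 2, by omega⟩
  exact ⟨_, S_odd_factor p m⟩

lemma exists_D {p : ℤ} {c : ℕ} (hc : c % 2 = 1) : ∃ D, (p + 1) * D = p ^ c + 1 := by
  have h : p + 1 ∣ p ^ c + 1 ^ c := Odd.add_dvd_pow_add_pow p 1 (Nat.odd_iff.mpr hc)
  obtain ⟨D, hD⟩ := h
  exact ⟨D, by rw [← hD]; simp⟩

lemma two_pow_mod3 (n : ℕ) : ((2:ℤ) ^ n) % 3 = 1 ∨ ((2:ℤ) ^ n) % 3 = 2 := by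
  induction n with
  | zero => left; norm_num
  | succ k ih => rw [pow_succ]; omega

lemma A_vals {a : ℕ} (ha : 2 ≤ a) : 7 ≤ S 2 a ∧ S 2 a % 4 = 3 ∧ S 2 a % 3 ≠ 2 ∧
    (S 2 a ≤ 33 → S 2 a = 7 ∨ S 2 a = 15 ∨ S 2 a = 31) ∧ S 2 a + 3 = 2 * (2 ^ a + 1) := by
  have h := S_geom 2 a
  have h' : S 2 a = 2 * 2 ^ a - 1 := by linarith
  obtain ⟨m, rfl⟩ : ∃ m, a = m + 2 := ⟨a - 2, by omega⟩
  have hm : (1:ℤ) ≤ 2 ^ m := one_le_pow₀ (by norm_num)
  have e : (2:ℤ) ^ (m + 2) = 4 * 2 ^ m := by ring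
  rw [e] at h'
  have h3 := two_pow_mod3 m
  refine ⟨by linarith, by omega, by omega, ?_, by rw [e]; linarith⟩
  intro h33
  have hm4 : (2:ℤ) ^ m ≤ 4 := by omega
  have hm2 : m ≤ 2 := by
    by_contra hc
    have : (2:ℤ) ^ 3 ≤ 2 ^ m := pow_le_pow_right₀ (by norm_num) (by omega)
    norm_num at this; omega
  interval_cases m <;> norm_num at h' <;> omega

lemma sq_le_pow {p : ℤ} {c : ℕ} (hp : 1 ≤ p) (hc : 2 ≤ c) : p ^ 2 ≤ p ^ c :=
  pow_le_pow_right₀ hp hc

/-- the asymmetric core -/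
lemma core_asym {A u v : ℤ} {x y : ℕ} (hA : 7 ≤ A) (hA4 : A % 4 = 3) (hA3 : A % 3 ≠ 2)
    (hAval : A ≤ 33 → A = 7 ∨ A = 15 ∨ A = 31)
    (hu : 3 ≤ u) (hv : 3 ≤ v) (hu1 : u % 2 = 1) (hv1 : v % 2 = 1) (huv : u ≠ v)
    (hx : 2 ≤ x) (hy : 5 ≤ y) (hy1 : y % 2 = 1) (hxy : x % 2 = 0 → 7 ≤ y)
    (hE : A * S u x * S v y = (A + 3) * (u ^ x + 1) * (v ^ y + 1)) : False := by
  have hA0 : 0 < A := by linarith
  obtain ⟨T, hT⟩ := exists_D (p := v) hy1
  have gu := S_geom u x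
  have gv := S_geom v y
  have hux2 : u ^ 2 ≤ u ^ x := sq_le_pow (by linarith) hx
  have hvy2 : v ^ 2 ≤ v ^ y := sq_le_pow (by linarith) (by omega)
  have hux1 : 1 ≤ u ^ x := one_le_pow₀ (by linarith)
  have hvy1 : 1 ≤ v ^ y := one_le_pow₀ (by linarith)
  have hSu := S_pos (by linarith : (0:ℤ) < u) x
  have hSv := S_pos (by linarith : (0:ℤ) < v) y
  have hAu : A ≤ 3 * u := A_le hu (A_lt hA0 (by linarith) (by linarith) hux2 hvy2 gu gv hE)
  have hE' : A * S v y * S u x = (A + 3) * (v ^ y + 1) * (u ^ x + 1) := by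
    calc A * S v y * S u x = A * S u x * S v y := by ring
      _ = _ := by rw [hE]; ring
  have hAv : A ≤ 3 * v := A_le hv (A_lt hA0 (by linarith) (by linarith) hvy2 hux2 gv gu hE')
  have hT3 : v ^ 3 * (v - 1) ≤ T := T_ge (by linarith) (by omega) hT
  have hAv' : A ≤ 3 * (v - 1) := A_le' hA0 (by linarith) hv hux2
    (pow_le_pow_right₀ (by linarith) (by omega)) gu gv hE
  have hgap : A + 3 ≤ 3 * (v - 1) := gap (by omega) hA3 hv1 hAv'
  -- the case `x = 2`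
  by_cases hx2 : x = 2
  · subst hx2
    have hy7 : 7 ≤ y := hxy (by norm_num)
    have hT5 : v ^ 5 * (v - 1) ≤ T := T_ge (by linarith) (by omega) hT
    have hSu2 : S u 2 = u ^ 2 + u + 1 := by simp [S, sum_range_succ]; ring
    rw [hSu2] at hE
    have hQ := quot_eq (by linarith) gv hE hT
    rcases lt_or_gt_of_ne huv with h | h
    · exact c1a_two hA hAu hu (by omega) hT5 hQ
    · refine c1b_big (u := u) (N := u ^ 2 + u + 1) (D := u ^ 2 + 1) hA hv (by omega) hgap hT5 ?_ hQ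
      right; exact ⟨rfl, by ring⟩
  by_cases hx3 : x = 3
  · subst hx3
    have hSu3 : S u 3 = (u + 1) * (u ^ 2 + 1) := by simp [S, sum_range_succ]; ring
    have hE3 : A * (u ^ 2 + 1) * S v y = (A + 3) * (u ^ 2 - u + 1) * (v ^ y + 1) := by
      have : (u + 1) * (A * (u ^ 2 + 1) * S v y) =
          (u + 1) * ((A + 3) * (u ^ 2 - u + 1) * (v ^ y + 1)) := by
        calc (u + 1) * (A * (u ^ 2 + 1) * S v y) = A * S u 3 * S v y := by rw [hSu3]; ring
          _ = _ := by rw [hE]; ring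
      exact mul_left_cancel₀ (by linarith) this
    have hQ := quot_eq (by linarith) gv hE3 hT
    rcases lt_or_gt_of_ne huv with h | h
    · exact c1a_three hA hAu hu (by omega) hT3 hQ
    · by_cases hy7 : 7 ≤ y
      · have hT5 : v ^ 5 * (v - 1) ≤ T := T_ge (by linarith) (by omega) hT
        refine c1b_big (u := u) (N := u ^ 2 + 1) (D := u ^ 2 - u + 1) hA hv (by omega) hgap hT5 ?_ hQ
        left; exact ⟨rfl, by ring⟩
      · have hy5 : y = 5 := by omega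
        subst hy5
        exact c1b_five hA hAval hv hv1 (by omega) hgap hT hQ
  -- now `x ≥ 4`
  have hx4 : 4 ≤ x := by omega
  rcases Nat.mod_two_eq_zero_or_one x with hx0 | hx1
  · have hy7 := hxy hx0
    rcases lt_or_gt_of_ne huv with h | h
    · exact alpha hA0 hAu hu (by omega) hux1 (pow_le_pow_right₀ (by linarith) hy7) hSu gu gv hE
    · obtain ⟨N, hN⟩ := exists_N (p := v) hy1
      exact beta hA0 hAv hv (by omega) (pow_le_pow_right₀ (by linarith) hy7)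
        (pow_le_pow_right₀ (by linarith) hx4) hSv gv gu hE' hN hT
  · rcases lt_or_gt_of_ne huv with h | h
    · obtain ⟨N, hN⟩ := exists_N (p := u) hx1
      obtain ⟨D, hD⟩ := exists_D (p := u) hx1
      exact gamma hA hAu hAval hu hu1 (by omega) (by omega) hy hSu gu gv hE hN hD
    · obtain ⟨N, hN⟩ := exists_N (p := v) hy1
      exact gamma hA hAv hAval hv hv1 (by omega) hy (by omega) hSv gv gu hE' hN hT

end Pool.Agent.NonUnitary
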