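import Pool.Agent.NonUnitary.Assembly

/-!
Final assembly: at most three primes whose square divides `n`.
-/

namespace Pool.Agent.NonUnitary

open Finset

lemma odd_cast {p : ℕ} (hp : p.Prime) (h2 : p ≠ 2) : Odd (p : ℤ) ∧ (3 : ℤ) ≤ p := by
  have h := hp.eq_two_or_odd'.resolve_left h2
  refine ⟨by exact_mod_cast h, ?_⟩
  have h1 := hp.two_le
  have : 3 ≤ p := by omega
  exact_mod_cast this

lemma no_three {p q r : ℕ} (hp : p.Prime) (hq : q.Prime) (hr : r.Prime) (hpq : p ≠ q) (hpr : p ≠ r)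
    (hqr : q ≠ r) {a b c : ℕ} (ha : 2 ≤ a) (hb : 2 ≤ b) (hc : 2 ≤ c)
    (hE : S p a * S q b * S r c = 2 * (((p:ℤ) ^ a + 1) * ((q:ℤ) ^ b + 1) * ((r:ℤ) ^ c + 1))) :
    False := by
  by_cases hp2 : p = 2
  · subst hp2
    obtain ⟨o1, t1⟩ := odd_cast hq (fun h => hpq h.symm)
    obtain ⟨o2, t2⟩ := odd_cast hr (fun h => hpr h.symm)
    exact core_sym ha t1 t2 o1 o2 (by exact_mod_cast hqr) hb hc (by push_cast at hE; exact hE)
  by_cases hq2 : q = 2
  · subst hq2
    obtain ⟨o1, t1⟩ := odd_cast hp hp2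
    obtain ⟨o2, t2⟩ := odd_cast hr (fun h => hqr h.symm)
    refine core_sym hb t1 t2 o1 o2 (by exact_mod_cast hpr) ha hc ?_
    push_cast at hE
    linarith
  by_cases hr2 : r = 2
  · subst hr2
    obtain ⟨o1, t1⟩ := odd_cast hp hp2
    obtain ⟨o2, t2⟩ := odd_cast hq hq2
    refine core_sym hc t1 t2 o1 o2 (by exact_mod_cast hpq) ha hb ?_
    push_cast at hE
    linarith
  have p3 : 3 ≤ p := by have := hp.two_le; omega
  have q3 : 3 ≤ q := by have := hq.two_le; omega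
  have r3 : 3 ≤ r := by have := hr.two_le; omega
  rcases lt_or_gt_of_ne hpq with h1 | h1 <;> rcases lt_or_gt_of_ne hpr with h2 | h2 <;>
    rcases lt_or_gt_of_ne hqr with h3 | h3
  · exact three_odd hp hq hr p3 h1 h3 ha hb hc hE
  · exact three_odd hp hr hq p3 h2 h3 ha hc hb (by linarith)
  · omega
  · exact three_odd hr hp hq r3 h2 h1 hc ha hb (by linarith)
  · exact three_odd hq hp hr q3 h1 h2 hb ha hc (by linarith)
  · omega
  · exact three_odd hq hr hp q3 h3 h2 hb hc ha (by linarith)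
  · exact three_odd hr hq hp r3 h3 h1 hc hb ha (by linarith)

lemma two_primes {p q : ℕ} (hp : p.Prime) (hq : q.Prime) (hpq : p ≠ q) {a b : ℕ} (ha : 2 ≤ a)
    (hb : 2 ≤ b) (hE : S p a * S q b = 2 * (((p:ℤ) ^ a + 1) * ((q:ℤ) ^ b + 1))) :
    (p = 2 ∧ a = 2 ∧ q = 3 ∧ b = 3) ∨ (q = 2 ∧ b = 2 ∧ p = 3 ∧ a = 3) := by
  by_cases hp2 : p = 2
  · subst hp2
    obtain ⟨o1, t1⟩ := odd_cast hq (fun h => hpq h.symm)
    obtain ⟨h1, h2, h3⟩ := two_two ha hb t1 (by push_cast at hE; exact hE)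
    left; exact ⟨rfl, h1, by exact_mod_cast h2, h3⟩
  by_cases hq2 : q = 2
  · subst hq2
    obtain ⟨o1, t1⟩ := odd_cast hp hp2
    obtain ⟨h1, h2, h3⟩ := two_two hb ha t1 (by push_cast at hE; linarith)
    right; exact ⟨rfl, h1, by exact_mod_cast h2, h3⟩
  · exact (two_odd (odd_cast hp hp2).2 (odd_cast hq hq2).2 (by exact_mod_cast hpq) hE).elim

theorem classify {n : ℕ} (hn : n ≠ 0) (h : ∑ d ∈ n.divisors, d = 2 * usum n)
    (h3 : (sq n).card ≤ 3) :
    n.factorization 2 = 2 ∧ n.factorization 3 = 3 ∧ ∀ p, p.Prime → p ^ 2 ∣ n → p = 2 ∨ p = 3 := by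
  have hr := reduced hn h
  have hmem : ∀ p ∈ sq n, p.Prime ∧ 2 ≤ n.factorization p := by
    intro p hp
    have h1 : p ∈ n.primeFactors := (mem_filter.mp hp).1
    exact ⟨Nat.prime_of_mem_primeFactors h1, (mem_sq hn h1).mp hp⟩
  have hall : ∀ p, p.Prime → p ^ 2 ∣ n → p ∈ sq n := by
    intro p hp hd
    refine mem_filter.mpr ⟨?_, hd⟩
    exact Nat.mem_primeFactors.mpr ⟨hp, (dvd_pow_self p (by norm_num)).trans hd, hn⟩
  have hcases : (sq n).card = 0 ∨ (sq n).card = 1 ∨ (sq n).card = 2 ∨ (sq n).card = 3 := by omega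
  rcases hcases with h0 | h1 | h2 | h3
  · rw [Finset.card_eq_zero] at h0
    rw [h0] at hr
    norm_num at hr
  · obtain ⟨p, hp⟩ := Finset.card_eq_one.mp h1
    rw [hp] at hr
    simp only [prod_singleton] at hr
    have := (hmem p (by rw [hp]; simp)).1.two_le
    exact (one_prime (by exact_mod_cast this) _ hr).elim
  · obtain ⟨p, q, hpq, hs⟩ := Finset.card_eq_two.mp h2
    have m1 := hmem p (by rw [hs]; simp)
    have m2 := hmem q (by rw [hs]; simp)
    rw [hs, Finset.prod_pair hpq, Finset.prod_pair hpq] at hr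
    rcases two_primes m1.1 m2.1 hpq m1.2 m2.2 hr with ⟨e1, e2, e3, e4⟩ | ⟨e1, e2, e3, e4⟩
    · subst e1 e3
      refine ⟨e2, e4, ?_⟩
      intro t ht hd
      have := hall t ht hd
      rw [hs] at this
      simpa using this
    · subst e1 e3
      refine ⟨e2, e4, ?_⟩
      intro t ht hd
      have := hall t ht hd
      rw [hs] at this
      have h' : t = 3 ∨ t = 2 := by simpa using this
      exact h'.symm
  · obtain ⟨p, q, r, hpq, hpr, hqr, hs⟩ := Finset.card_eq_three.mp h3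
    have m1 := hmem p (by rw [hs]; simp)
    have m2 := hmem q (by rw [hs]; simp)
    have m3 := hmem r (by rw [hs]; simp)
    rw [hs, Finset.prod_insert (by simp [hpq, hpr]), Finset.prod_pair hqr,
      Finset.prod_insert (by simp [hpq, hpr]), Finset.prod_pair hqr] at hr
    exact (no_three m1.1 m2.1 m3.1 hpq hpr hqr m1.2 m2.2 m3.2 (by rw [mul_assoc, hr]; ring)).elim

theorem conclusion {n : ℕ} (hn : n ≠ 0) (h2 : n.factorization 2 = 2) (h3 : n.factorization 3 = 3)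
    (h : ∀ p, p.Prime → p ^ 2 ∣ n → p = 2 ∨ p = 3) :
    n % 216 = 108 ∧ ∃ s : ℕ, Squarefree s ∧ Nat.Coprime s 6 ∧ n = 108 * s := by
  have d4 : 2 ^ 2 ∣ n := (Nat.prime_two.pow_dvd_iff_le_factorization hn).mpr h2.ge
  have d27 : 3 ^ 3 ∣ n := (Nat.prime_three.pow_dvd_iff_le_factorization hn).mpr h3.ge
  have n8 : ¬ 2 ^ 3 ∣ n := fun hc => by
    have := (Nat.prime_two.pow_dvd_iff_le_factorization hn).mp hc
    omega
  have n81 : ¬ 3 ^ 4 ∣ n := fun hc => by
    have := (Nat.prime_three.pow_dvd_iff_le_factorization hn).mp hc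
    omega
  have d108 : 108 ∣ n := by
    have : 2 ^ 2 * 3 ^ 3 ∣ n := Nat.Coprime.mul_dvd_of_dvd_of_dvd (by norm_num) d4 d27
    norm_num at this; exact this
  obtain ⟨s, hs⟩ := d108
  have s2 : ¬ 2 ∣ s := by
    rintro ⟨t, rfl⟩
    exact n8 ⟨27 * t, by rw [hs]; ring⟩
  have s3 : ¬ 3 ∣ s := by
    rintro ⟨t, rfl⟩
    exact n81 ⟨4 * t, by rw [hs]; ring⟩
  refine ⟨by omega, s, ?_, ?_, hs⟩
  · rw [Nat.squarefree_iff_prime_squarefree]
    rintro p hp hd
    have hd' : p ^ 2 ∣ n := by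
      rw [hs, pow_two]; exact Dvd.dvd.mul_left hd 108
    rcases h p hp hd' with rfl | rfl
    · exact s2 ((Dvd.intro _ rfl).trans hd)
    · exact s3 ((Dvd.intro _ rfl).trans hd)
  · have c2 : Nat.Coprime s 2 := ((Nat.Prime.coprime_iff_not_dvd Nat.prime_two).mpr s2).symm
    have c3 : Nat.Coprime s 3 := ((Nat.Prime.coprime_iff_not_dvd Nat.prime_three).mpr s3).symm
    have := Nat.Coprime.mul_right c2 c3
    simpa using this

end Pool.Agent.NonUnitary
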