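import Mathlib

/-!
Elementary inequalities for the equation `sigma(n) = 2 sigma*(n)`:
`A` stands for `2^(a+1)-1`, `U = q^b`, `V = s^e`, `Sq = sigma(q^b)`, `Ss = sigma(s^e)`.
-/

namespace Pool.Agent.NonUnitary

/-- `sigma(q^b) > q^b + 1` for `b ≥ 2`. -/
lemma S_gt {q U Sq : ℤ} (hq : 2 ≤ q) (hU : q ^ 2 ≤ U) (h1 : (q - 1) * Sq = q * U - 1) :
    U + 1 < Sq := by
  have h : (q - 1) * (U + 1) < (q - 1) * Sq := by nlinarith
  exact lt_of_mul_lt_mul_left h (by linarith)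

/-- `sigma(q^b)/(q^b+1) ≥ (q^2+q+1)/(q^2+1)` for `b ≥ 2`. -/
lemma S_ge {q U Sq : ℤ} (hq : 2 ≤ q) (hU : q ^ 2 ≤ U) (h1 : (q - 1) * Sq = q * U - 1) :
    (q ^ 2 + q + 1) * (U + 1) ≤ Sq * (q ^ 2 + 1) := by
  have h : (q - 1) * ((q ^ 2 + q + 1) * (U + 1)) ≤ (q - 1) * (Sq * (q ^ 2 + 1)) := by
    have e : (q - 1) * (Sq * (q ^ 2 + 1)) = (q * U - 1) * (q ^ 2 + 1) := by
      rw [← mul_assoc, h1]
    rw [e]
    nlinarith [mul_le_mul_of_nonneg_left hU (by linarith : (0:ℤ) ≤ q + 1)]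
  exact le_of_mul_le_mul_left h (by linarith)

/-- `sigma(q^b)/(q^b+1) < q/(q-1)`. -/
lemma S_lt {q U Sq : ℤ} (hq : 2 ≤ q) (h1 : (q - 1) * Sq = q * U - 1) :
    (q - 1) * Sq < q * (U + 1) := by
  rw [h1]; linarith

lemma A_lt {A q s U V Sq Ss : ℤ} (hA : 0 < A) (hq : 2 ≤ q) (hs : 2 ≤ s) (hU : q ^ 2 ≤ U)
    (hV : s ^ 2 ≤ V) (h1 : (q - 1) * Sq = q * U - 1) (h2 : (s - 1) * Ss = s * V - 1)
    (hE : A * Sq * Ss = (A + 3) * (U + 1) * (V + 1)) : A * q < 3 * (q ^ 2 + 1) := by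
  have b1 : V + 1 < Ss := S_gt hs hV h2
  have b2 := S_ge hq hU h1
  have hU0 : 0 < U + 1 := by nlinarith
  have hV0 : 0 < V + 1 := by nlinarith
  have hq2 : 0 < q ^ 2 + 1 := by positivity
  have c1 : A * ((q ^ 2 + q + 1) * (U + 1)) * (V + 1) < A * (Sq * (q ^ 2 + 1)) * Ss := by
    have t1 : A * ((q ^ 2 + q + 1) * (U + 1)) * (V + 1) < A * ((q ^ 2 + q + 1) * (U + 1)) * Ss := by
      apply mul_lt_mul_of_pos_left b1
      have : 0 < q ^ 2 + q + 1 := by positivity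
      positivity
    have t2 : A * ((q ^ 2 + q + 1) * (U + 1)) * Ss ≤ A * (Sq * (q ^ 2 + 1)) * Ss := by
      apply mul_le_mul_of_nonneg_right _ (by linarith)
      exact mul_le_mul_of_nonneg_left b2 hA.le
    linarith
  have c2 : A * (Sq * (q ^ 2 + 1)) * Ss = ((A + 3) * (q ^ 2 + 1)) * ((U + 1) * (V + 1)) := by
    have : A * (Sq * (q ^ 2 + 1)) * Ss = (A * Sq * Ss) * (q ^ 2 + 1) := by ring
    rw [this, hE]; ring
  have c3 : (A * (q ^ 2 + q + 1)) * ((U + 1) * (V + 1)) < ((A + 3) * (q ^ 2 + 1)) * ((U + 1) * (V + 1)) := by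
    rw [← c2]
    calc _ = A * ((q ^ 2 + q + 1) * (U + 1)) * (V + 1) := by ring
      _ < _ := c1
  have c4 := lt_of_mul_lt_mul_right c3 (by positivity)
  nlinarith

/-- The equation solved for `V + 1`: if `T (s+1) = V+1`. -/
lemma quot_eq {A N D s V T Ss : ℤ} (hs : 2 ≤ s) (h2 : (s - 1) * Ss = s * V - 1)
    (hE : A * N * Ss = (A + 3) * D * (V + 1)) (hT : (s + 1) * T = V + 1) :
    T * (s * A * N - (s - 1) * (A + 3) * D) = A * N := by
  have h : (s + 1) * (T * (s * A * N - (s - 1) * (A + 3) * D)) = (s + 1) * (A * N) := by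
    have e1 : (A + 3) * D * (V + 1) * (s - 1) = A * N * (s * V - 1) := by
      rw [← hE, ← h2]; ring
    calc (s + 1) * (T * (s * A * N - (s - 1) * (A + 3) * D))
        = ((s + 1) * T) * (s * A * N - (s - 1) * (A + 3) * D) := by ring
      _ = (V + 1) * (s * A * N) - (A + 3) * D * (V + 1) * (s - 1) := by rw [hT]; ring
      _ = (V + 1) * (s * A * N) - A * N * (s * V - 1) := by rw [e1]
      _ = (s + 1) * (A * N) := by ring
  exact mul_left_cancel₀ (by linarith) h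

/-- lower bound for `T = (v^y+1)/(v+1)`. -/
lemma T_ge {v T : ℤ} {y m : ℕ} (hv : 2 ≤ v) (hy : m + 2 ≤ y) (hT : (v + 1) * T = v ^ y + 1) :
    v ^ m * (v - 1) ≤ T := by
  have h : (v + 1) * (v ^ m * (v - 1)) ≤ (v + 1) * T := by
    rw [hT]
    have h1 : v ^ (m + 2) ≤ v ^ y := pow_le_pow_right₀ (by linarith) hy
    have h2 : (v + 1) * (v ^ m * (v - 1)) = v ^ (m + 2) - v ^ m := by ring
    have h3 : 0 ≤ v ^ m := by positivity
    linarith
  exact le_of_mul_le_mul_left h (by linarith)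

end Pool.Agent.NonUnitary
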