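import Pool.Agent.NonUnitary.CoreSym

/-!
One and two primes, and three odd primes.
-/

namespace Pool.Agent.NonUnitary

open Finset

lemma S_upper {p : ℤ} (hp : 2 ≤ p) (c : ℕ) : (p - 1) * S p c < p * (p ^ c + 1) := by
  rw [S_geom]; linarith

lemma S_lower {p : ℤ} (hp : 2 ≤ p) {c0 c : ℕ} (h : c0 ≤ c) :
    S p c0 * (p ^ c + 1) ≤ (p ^ c0 + 1) * S p c := by
  have hP : p ^ c0 ≤ p ^ c := pow_le_pow_right₀ (by linarith) h
  have e : (p - 1) * ((p ^ c0 + 1) * S p c - S p c0 * (p ^ c + 1))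
      = (p + 1) * (p ^ c - p ^ c0) := by
    have g1 := S_geom p c
    have g0 := S_geom p c0
    linear_combination (p ^ c0 + 1) * g1 - (p ^ c + 1) * g0
  have h0 : 0 ≤ (p - 1) * ((p ^ c0 + 1) * S p c - S p c0 * (p ^ c + 1)) := by
    rw [e]; exact mul_nonneg (by linarith) (by linarith)
  have := nonneg_of_mul_nonneg_right h0 (by linarith)
  linarith

lemma one_prime {p : ℤ} (hp : 2 ≤ p) (c : ℕ) (hE : S p c = 2 * (p ^ c + 1)) : False := by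
  have h := S_upper hp c
  rw [hE] at h
  have hx : 0 < p ^ c + 1 := by positivity
  have h2 : (2 * (p - 1)) * (p ^ c + 1) < p * (p ^ c + 1) := by linarith
  have := lt_of_mul_lt_mul_right h2 hx.le
  linarith

lemma two_odd {p q : ℤ} {a b : ℕ} (hp : 3 ≤ p) (hq : 3 ≤ q) (hne : p ≠ q)
    (hE : S p a * S q b = 2 * ((p ^ a + 1) * (q ^ b + 1))) : False := by
  have h1 := S_upper (by linarith : 2 ≤ p) a
  have h2 := S_upper (by linarith : 2 ≤ q) b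
  have hx : 0 < p ^ a + 1 := by positivity
  have hy : 0 < q ^ b + 1 := by positivity
  have hS1 := S_pos (by linarith : (0:ℤ) < p) a
  have hS2 := S_pos (by linarith : (0:ℤ) < q) b
  have h3 : ((p - 1) * S p a) * ((q - 1) * S q b) < (p * (p ^ a + 1)) * (q * (q ^ b + 1)) :=
    mul_lt_mul'' h1 h2 (mul_nonneg (by linarith) hS1.le) (mul_nonneg (by linarith) hS2.le)
  have h4 : (2 * ((p - 1) * (q - 1))) * ((p ^ a + 1) * (q ^ b + 1)) <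
      (p * q) * ((p ^ a + 1) * (q ^ b + 1)) := by
    calc (2 * ((p - 1) * (q - 1))) * ((p ^ a + 1) * (q ^ b + 1))
        = ((p - 1) * (q - 1)) * (2 * ((p ^ a + 1) * (q ^ b + 1))) := by ring
      _ = ((p - 1) * S p a) * ((q - 1) * S q b) := by rw [← hE]; ring
      _ < _ := h3
      _ = _ := by ring
  have h5 := lt_of_mul_lt_mul_right h4 (by positivity)
  rcases lt_or_gt_of_ne hne with h | h
  · nlinarith [mul_nonneg (by linarith : (0:ℤ) ≤ p - 3) (by linarith : (0:ℤ) ≤ q - 4)]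
  · nlinarith [mul_nonneg (by linarith : (0:ℤ) ≤ p - 4) (by linarith : (0:ℤ) ≤ q - 3)]

lemma two_two {a b : ℕ} {q : ℤ} (ha : 2 ≤ a) (hb : 2 ≤ b) (hq : 3 ≤ q)
    (hE : S 2 a * S q b = 2 * ((2 ^ a + 1) * (q ^ b + 1))) : a = 2 ∧ q = 3 ∧ b = 3 := by
  obtain ⟨hA, hA4, hA3, hAval, hA5⟩ := A_vals ha
  have g2 := S_geom 2 a
  set A := S 2 a with hAdef
  have hE1 : A * S q b = (A + 3) * (q ^ b + 1) := by rw [hE, hA5]; ring
  have g := S_geom q b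
  have k1 : A * (q ^ b - q) = 3 * (q - 1) * (q ^ b + 1) := by
    have : A * (q * q ^ b - 1) = (A + 3) * (q - 1) * (q ^ b + 1) := by
      rw [← g]
      calc A * ((q - 1) * S q b) = (q - 1) * (A * S q b) := by ring
        _ = _ := by rw [hE1]; ring
    linarith
  have k2 : (A - 3 * (q - 1)) * (q ^ b - q) = 3 * (q ^ 2 - 1) := by linarith
  have hqb : q ^ 2 ≤ q ^ b := pow_le_pow_right₀ (by linarith) hb
  have hM : 1 ≤ A - 3 * (q - 1) := by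
    by_contra hc
    have : (A - 3 * (q - 1)) * (q ^ b - q) ≤ 0 :=
      mul_nonpos_of_nonpos_of_nonneg (by linarith) (by nlinarith)
    nlinarith
  rcases Nat.lt_or_ge b 4 with h4 | h4
  · have hb' : b = 2 ∨ b = 3 := by omega
    rcases hb' with rfl | rfl
    · exfalso
      have k3 : (q - 1) * ((A - 3 * (q - 1) - 3) * q) = (q - 1) * 3 := by linarith
      have k4 : (A - 3 * (q - 1) - 3) * q = 3 := mul_left_cancel₀ (by linarith) k3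
      have hq3 : q ≤ 3 := Int.le_of_dvd (by norm_num) ⟨A - 3 * (q - 1) - 3, by linarith⟩
      obtain rfl : q = 3 := by linarith
      omega
    · have k3 : (q ^ 2 - 1) * ((A - 3 * (q - 1)) * q) = (q ^ 2 - 1) * 3 := by linarith
      have k4 : (A - 3 * (q - 1)) * q = 3 := mul_left_cancel₀ (by nlinarith) k3
      have hq3 : q ≤ 3 := Int.le_of_dvd (by norm_num) ⟨A - 3 * (q - 1), by linarith⟩
      obtain rfl : q = 3 := by linarith
      have hA7 : A = 7 := by omega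
      refine ⟨?_, rfl, rfl⟩
      have h8 : (2:ℤ) ^ a = 4 := by linarith
      by_contra hne
      have : (2:ℤ) ^ 3 ≤ 2 ^ a := pow_le_pow_right₀ (by norm_num) (by omega)
      norm_num at this; linarith
  · exfalso
    have h5 : q ^ 4 ≤ q ^ b := pow_le_pow_right₀ (by linarith) h4
    have h6 : 1 * (q ^ b - q) ≤ (A - 3 * (q - 1)) * (q ^ b - q) :=
      mul_le_mul_of_nonneg_right hM (by nlinarith)
    have h7 : q ^ 4 - q ≤ 3 * (q ^ 2 - 1) := by linarith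
    nlinarith [mul_le_mul hq hq (by norm_num) (by linarith), sq_nonneg (q ^ 2)]

lemma prod_ge {n1 n2 n3 d1 d2 d3 S1 S2 S3 x1 x2 x3 : ℤ} (hn1 : 0 < n1) (hn2 : 0 < n2) (hn3 : 0 < n3)
    (hx1 : 0 < x1) (hx2 : 0 < x2) (hx3 : 0 < x3)
    (h1 : n1 * x1 ≤ d1 * S1) (h2 : n2 * x2 ≤ d2 * S2) (h3 : n3 * x3 ≤ d3 * S3)
    (hE : S1 * S2 * S3 = 2 * (x1 * x2 * x3)) : n1 * n2 * n3 ≤ 2 * (d1 * d2 * d3) := by
  have a1 : 0 < n1 * x1 := by positivity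
  have a2 : 0 < n2 * x2 := by positivity
  have a3 : 0 < n3 * x3 := by positivity
  have b1 : (n1 * x1) * (n2 * x2) ≤ (d1 * S1) * (d2 * S2) := mul_le_mul h1 h2 a2.le (by linarith)
  have b2 : (n1 * x1) * (n2 * x2) * (n3 * x3) ≤ (d1 * S1) * (d2 * S2) * (d3 * S3) :=
    mul_le_mul b1 h3 a3.le (le_trans (by positivity) b1)
  have b3 : (n1 * n2 * n3) * (x1 * x2 * x3) ≤ (2 * (d1 * d2 * d3)) * (x1 * x2 * x3) := by
    calc (n1 * n2 * n3) * (x1 * x2 * x3) = (n1 * x1) * (n2 * x2) * (n3 * x3) := by ring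
      _ ≤ _ := b2
      _ = (d1 * d2 * d3) * (S1 * S2 * S3) := by ring
      _ = _ := by rw [hE]; ring
  exact le_of_mul_le_mul_right b3 (by positivity)

lemma prod_le {n1 n2 n3 d1 d2 d3 S1 S2 S3 x1 x2 x3 : ℤ} (hd1 : 0 < d1) (hd2 : 0 < d2) (hd3 : 0 < d3)
    (hx1 : 0 < x1) (hx2 : 0 < x2) (hx3 : 0 < x3) (hS1 : 0 < S1) (hS2 : 0 < S2) (hS3 : 0 < S3)
    (h1 : d1 * S1 ≤ n1 * x1) (h2 : d2 * S2 ≤ n2 * x2) (h3 : d3 * S3 ≤ n3 * x3)
    (hE : S1 * S2 * S3 = 2 * (x1 * x2 * x3)) : 2 * (d1 * d2 * d3) ≤ n1 * n2 * n3 := by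
  have a1 : 0 < d1 * S1 := by positivity
  have a2 : 0 < d2 * S2 := by positivity
  have a3 : 0 < d3 * S3 := by positivity
  have b1 : (d1 * S1) * (d2 * S2) ≤ (n1 * x1) * (n2 * x2) := mul_le_mul h1 h2 a2.le (by linarith)
  have b2 : (d1 * S1) * (d2 * S2) * (d3 * S3) ≤ (n1 * x1) * (n2 * x2) * (n3 * x3) :=
    mul_le_mul b1 h3 a3.le (le_trans (by positivity) b1)
  have b3 : (2 * (d1 * d2 * d3)) * (x1 * x2 * x3) ≤ (n1 * n2 * n3) * (x1 * x2 * x3) := by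
    calc (2 * (d1 * d2 * d3)) * (x1 * x2 * x3) = (d1 * d2 * d3) * (2 * (x1 * x2 * x3)) := by ring
      _ = (d1 * S1) * (d2 * S2) * (d3 * S3) := by rw [← hE]; ring
      _ ≤ _ := b2
      _ = _ := by ring
  exact le_of_mul_le_mul_right b3 (by positivity)

/-- all bounds for the exponent of `p` : exact values for `c ≤ 5` -/
lemma cases_three {p : ℤ} (hp : 2 ≤ p) {c : ℕ} (hc : 2 ≤ c) :
    (c = 2 ∨ c = 3 ∨ c = 4 ∨ c = 5 ∨
      (S p 6 * (p ^ c + 1) ≤ (p ^ 6 + 1) * S p c ∧ (p - 1) * S p c ≤ p * (p ^ c + 1))) := by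
  rcases Nat.lt_or_ge c 6 with h | h
  · omega
  · right; right; right; right
    exact ⟨S_lower hp h, (S_upper hp c).le⟩

lemma cases_four {p : ℤ} (hp : 2 ≤ p) {c : ℕ} (hc : 2 ≤ c) :
    (c = 2 ∨ c = 3 ∨
      (S p 4 * (p ^ c + 1) ≤ (p ^ 4 + 1) * S p c ∧ (p - 1) * S p c ≤ p * (p ^ c + 1))) := by
  rcases Nat.lt_or_ge c 4 with h | h
  · omega
  · right; right
    exact ⟨S_lower hp h, (S_upper hp c).le⟩

lemma Sval (p : ℤ) : S p 2 = p ^ 2 + p + 1 ∧ S p 3 = p ^ 3 + p ^ 2 + p + 1 ∧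
    S p 4 = p ^ 4 + p ^ 3 + p ^ 2 + p + 1 ∧ S p 5 = p ^ 5 + p ^ 4 + p ^ 3 + p ^ 2 + p + 1 ∧
    S p 6 = p ^ 6 + p ^ 5 + p ^ 4 + p ^ 3 + p ^ 2 + p + 1 := by
  refine ⟨?_, ?_, ?_, ?_, ?_⟩ <;> simp [S, sum_range_succ] <;> ring

/-- the bases `3, 5, r` with `r = 7, 11, 13` -/
lemma three_fin {r : ℤ} (hr : r = 7 ∨ r = 11 ∨ r = 13) {a b c : ℕ} (ha : 2 ≤ a) (hb : 2 ≤ b)
    (hc : 2 ≤ c) (hE : S 3 a * S 5 b * S r c = 2 * ((3 ^ a + 1) * (5 ^ b + 1) * (r ^ c + 1))) :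
    False := by
  have hr0 : 2 ≤ r := by omega
  have x1 : (0:ℤ) < 3 ^ a + 1 := by positivity
  have x2 : (0:ℤ) < 5 ^ b + 1 := by positivity
  have x3 : (0:ℤ) < r ^ c + 1 := by positivity
  have s1 := S_pos (by norm_num : (0:ℤ) < 3) a
  have s2 := S_pos (by norm_num : (0:ℤ) < 5) b
  have s3 := S_pos (by linarith : (0:ℤ) < r) c
  -- two-sided bounds
  have H1 : (10 * S 3 a = 13 * (3 ^ a + 1)) ∨ (28 * S 3 a = 40 * (3 ^ a + 1)) ∨
      (82 * S 3 a = 121 * (3 ^ a + 1)) ∨ (244 * S 3 a = 364 * (3 ^ a + 1)) ∨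
      (1093 * (3 ^ a + 1) ≤ 730 * S 3 a ∧ 2 * S 3 a ≤ 3 * (3 ^ a + 1)) := by
    obtain ⟨v2, v3, v4, v5, v6⟩ := Sval 3
    rcases cases_three (by norm_num : (2:ℤ) ≤ 3) ha with rfl | rfl | rfl | rfl | ⟨h, h'⟩
    · left; rw [v2]; norm_num
    · right; left; rw [v3]; norm_num
    · right; right; left; rw [v4]; norm_num
    · right; right; right; left; rw [v5]; norm_num
    · right; right; right; right
      rw [v6] at h; norm_num at h h'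
      exact ⟨by linarith, by linarith⟩
  have H2 : (26 * S 5 b = 31 * (5 ^ b + 1)) ∨ (126 * S 5 b = 156 * (5 ^ b + 1)) ∨
      (781 * (5 ^ b + 1) ≤ 626 * S 5 b ∧ 4 * S 5 b ≤ 5 * (5 ^ b + 1)) := by
    obtain ⟨v2, v3, v4, v5, v6⟩ := Sval 5
    rcases cases_four (by norm_num : (2:ℤ) ≤ 5) hb with rfl | rfl | ⟨h, h'⟩
    · left; rw [v2]; norm_num
    · right; left; rw [v3]; norm_num
    · right; right
      rw [v4] at h; norm_num at h h'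
      exact ⟨by linarith, by linarith⟩
  have H3 : ((r ^ 2 + 1) * S r c = (r ^ 2 + r + 1) * (r ^ c + 1)) ∨
      ((r ^ 3 + 1) * S r c = (r ^ 3 + r ^ 2 + r + 1) * (r ^ c + 1)) ∨
      ((r ^ 4 + r ^ 3 + r ^ 2 + r + 1) * (r ^ c + 1) ≤ (r ^ 4 + 1) * S r c ∧
        (r - 1) * S r c ≤ r * (r ^ c + 1)) := by
    obtain ⟨v2, v3, v4, v5, v6⟩ := Sval r
    rcases cases_four hr0 hc with rfl | rfl | ⟨h, h'⟩
    · left; rw [v2]; ring
    · right; left; rw [v3]; ring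
    · right; right
      rw [v4] at h
      exact ⟨h, h'⟩
  have K1 : (13 * (3 ^ a + 1) ≤ 10 * S 3 a ∧ 10 * S 3 a ≤ 13 * (3 ^ a + 1)) ∨
      (40 * (3 ^ a + 1) ≤ 28 * S 3 a ∧ 28 * S 3 a ≤ 40 * (3 ^ a + 1)) ∨
      (121 * (3 ^ a + 1) ≤ 82 * S 3 a ∧ 82 * S 3 a ≤ 121 * (3 ^ a + 1)) ∨
      (364 * (3 ^ a + 1) ≤ 244 * S 3 a ∧ 244 * S 3 a ≤ 364 * (3 ^ a + 1)) ∨
      (1093 * (3 ^ a + 1) ≤ 730 * S 3 a ∧ 2 * S 3 a ≤ 3 * (3 ^ a + 1)) := by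
    rcases H1 with h | h | h | h | h
    · exact Or.inl ⟨h.ge, h.le⟩
    · exact Or.inr (Or.inl ⟨h.ge, h.le⟩)
    · exact Or.inr (Or.inr (Or.inl ⟨h.ge, h.le⟩))
    · exact Or.inr (Or.inr (Or.inr (Or.inl ⟨h.ge, h.le⟩)))
    · exact Or.inr (Or.inr (Or.inr (Or.inr h)))
  have K2 : (31 * (5 ^ b + 1) ≤ 26 * S 5 b ∧ 26 * S 5 b ≤ 31 * (5 ^ b + 1)) ∨
      (156 * (5 ^ b + 1) ≤ 126 * S 5 b ∧ 126 * S 5 b ≤ 156 * (5 ^ b + 1)) ∨
      (781 * (5 ^ b + 1) ≤ 626 * S 5 b ∧ 4 * S 5 b ≤ 5 * (5 ^ b + 1)) := by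
    rcases H2 with h | h | h
    · exact Or.inl ⟨h.ge, h.le⟩
    · exact Or.inr (Or.inl ⟨h.ge, h.le⟩)
    · exact Or.inr (Or.inr h)
  have K3 : ((r ^ 2 + r + 1) * (r ^ c + 1) ≤ (r ^ 2 + 1) * S r c ∧
        (r ^ 2 + 1) * S r c ≤ (r ^ 2 + r + 1) * (r ^ c + 1)) ∨
      ((r ^ 3 + r ^ 2 + r + 1) * (r ^ c + 1) ≤ (r ^ 3 + 1) * S r c ∧
        (r ^ 3 + 1) * S r c ≤ (r ^ 3 + r ^ 2 + r + 1) * (r ^ c + 1)) ∨
      ((r ^ 4 + r ^ 3 + r ^ 2 + r + 1) * (r ^ c + 1) ≤ (r ^ 4 + 1) * S r c ∧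
        (r - 1) * S r c ≤ r * (r ^ c + 1)) := by
    rcases H3 with h | h | h
    · exact Or.inl ⟨h.ge, h.le⟩
    · exact Or.inr (Or.inl ⟨h.ge, h.le⟩)
    · exact Or.inr (Or.inr h)
  clear H1 H2 H3
  rcases hr with rfl | rfl | rfl <;>
  rcases K1 with ⟨h1, h1'⟩ | ⟨h1, h1'⟩ | ⟨h1, h1'⟩ | ⟨h1, h1'⟩ | ⟨h1, h1'⟩ <;>
  rcases K2 with ⟨h2, h2'⟩ | ⟨h2, h2'⟩ | ⟨h2, h2'⟩ <;>
  rcases K3 with ⟨h3, h3'⟩ | ⟨h3, h3'⟩ | ⟨h3, h3'⟩ <;>
  first
    | (have hh := prod_ge (by norm_num) (by norm_num) (by norm_num) x1 x2 x3 h1 h2 h3 hE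
       norm_num at hh
       done)
    | (have hh := prod_le (by norm_num) (by norm_num) (by norm_num) x1 x2 x3 s1 s2 s3
        h1' h2' h3' hE
       norm_num at hh
       done)

lemma three_odd {p q r : ℕ} (hp : p.Prime) (hq : q.Prime) (hr : r.Prime) (h3 : 3 ≤ p) (hpq : p < q)
    (hqr : q < r) {a b c : ℕ} (ha : 2 ≤ a) (hb : 2 ≤ b) (hc : 2 ≤ c)
    (hE : S p a * S q b * S r c = 2 * (((p:ℤ) ^ a + 1) * ((q:ℤ) ^ b + 1) * ((r:ℤ) ^ c + 1))) :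
    False := by
  have hpo : p % 2 = 1 := hp.eq_two_or_odd.resolve_left (by omega)
  have hqo : q % 2 = 1 := hq.eq_two_or_odd.resolve_left (by omega)
  have hro : r % 2 = 1 := hr.eq_two_or_odd.resolve_left (by omega)
  have hp0 : (3:ℤ) ≤ p := by exact_mod_cast h3
  have hq0 : (p:ℤ) + 2 ≤ q := by omega
  have hr0 : (q:ℤ) + 2 ≤ r := by omega
  have s1 := S_pos (by linarith : (0:ℤ) < p) a
  have s2 := S_pos (by linarith : (0:ℤ) < q) b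
  have s3 := S_pos (by linarith : (0:ℤ) < r) c
  have x1 : (0:ℤ) < (p:ℤ) ^ a + 1 := by positivity
  have x2 : (0:ℤ) < (q:ℤ) ^ b + 1 := by positivity
  have x3 : (0:ℤ) < (r:ℤ) ^ c + 1 := by positivity
  have key : 2 * (((p:ℤ) - 1) * ((q:ℤ) - 1) * ((r:ℤ) - 1)) ≤ (p:ℤ) * q * r :=
    prod_le (by linarith) (by linarith) (by linarith) x1 x2 x3 s1 s2 s3
      (S_upper (by linarith) a).le (S_upper (by linarith) b).le (S_upper (by linarith) c).le hE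
  have hp3 : p = 3 := by
    by_contra hne
    have h5 : (5:ℤ) ≤ p := by omega
    obtain ⟨x, hx⟩ : ∃ x : ℤ, (p:ℤ) = 5 + x := ⟨p - 5, by ring⟩
    obtain ⟨y, hy⟩ : ∃ y : ℤ, (q:ℤ) = 7 + y := ⟨q - 7, by ring⟩
    obtain ⟨z, hz⟩ : ∃ z : ℤ, (r:ℤ) = 9 + z := ⟨r - 9, by ring⟩
    have hx0 : 0 ≤ x := by linarith
    have hy0 : 0 ≤ y := by linarith
    have hz0 : 0 ≤ z := by linarith
    rw [hx, hy, hz] at key
    have : 0 ≤ x * y * z := by positivity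
    nlinarith [mul_nonneg hx0 hy0, mul_nonneg hx0 hz0, mul_nonneg hy0 hz0]
  subst hp3
  have hq5 : q = 5 := by
    by_contra hne
    have h7 : (7:ℤ) ≤ q := by omega
    obtain ⟨y, hy⟩ : ∃ y : ℤ, (q:ℤ) = 7 + y := ⟨q - 7, by ring⟩
    obtain ⟨z, hz⟩ : ∃ z : ℤ, (r:ℤ) = 9 + z := ⟨r - 9, by ring⟩
    have hy0 : 0 ≤ y := by linarith
    have hz0 : 0 ≤ z := by linarith
    rw [hy, hz] at key
    push_cast at key
    nlinarith [mul_nonneg hy0 hz0]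
  subst hq5
  have hr16 : (r:ℤ) ≤ 16 := by push_cast at key; linarith
  have hr16' : r ≤ 16 := by exact_mod_cast hr16
  have hrr : r = 7 ∨ r = 11 ∨ r = 13 := by
    interval_cases r <;> first | omega | (exfalso; revert hr; norm_num)
  exact three_fin (r := (r:ℤ)) (by rcases hrr with rfl | rfl | rfl <;> norm_num) ha hb hc
    (by push_cast at hE; exact hE)

end Pool.Agent.NonUnitary
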